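import Mathlib
import Pool.Agent.Work.MP_d3656f_al.DefsI

/-!
# I/Fox : the cell complex: relations, exactness at the edges, coefficients

Write `a i = sg (inl i)`, `b i = sg (inr i)`, `P i = sP i`.
* `sP_zero`, `sP_succ`, `sP_top` (the last is the defining relation).
* `coeff_mul_fD`: `(x * single p 1).coeff v = x.coeff (v * p⁻¹)`.
* `sum_fD`: `Σ_k fD k * (sg k - 1) = Σ_i (P_i - P_i a_i b_i a_i⁻¹)(a_i - 1) + (P_i a_i - P_{i+1})
  (b_i - 1) = Σ_i (P_{i+1} - P_i) = P_g - P_0 = 0`, using `P_{i+1} b_i = P_i a_i b_i a_i⁻¹`.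
* `fox_H1`. Let `R = ℤ[π]`, `F = (Fin g ⊕ Fin g → R)` as a left `R`-module, `N` the submodule of
  all `(m * fD j)_j`, `E = F / N`. `π` acts on `E`; in the semidirect product `E ⋊ π`
  (`Multiplicative E ⋊[φ] SG g`) consider the elements `([e_j], sg j)`. The product of the
  commutators of these elements has `π`-component `1` and `E`-component
  `Σ_i P_i [e_{a_i}] + P_i a_i [e_{b_i}] - P_i a_i b_i a_i⁻¹ [e_{a_i}] - P_{i+1} [e_{b_i}]
  = [(fD j)_j] = 0`. So (`PresentedGroup.toGroup`) there is a homomorphism `π → E ⋊ π` with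
  `sg j ↦ ([e_j], sg j)`; its `π`-component is the identity, its `E`-component is a map `D` with
  `D (x y) = D x + x D y`, `D (sg j) = [e_j]`. Extend `D` additively to `R → E`. Then for `x ∈ F`,
  `[x] = D (Σ_j x_j (sg j - 1))`: by additivity check it for `x = v e_j`, `v ∈ π`:
  `D (v sg j) - D v = v D (sg j) = v [e_j]`. So if `Σ_j x_j (sg j - 1) = 0` then `x ∈ N`.
* `fox_path`: the set of `x ∈ π` for which such `w` exists contains `1`, the generators, and is
  closed under products (`w_x + x w_y`) and inverses (`- x⁻¹ w_x`); the generators generate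
  (`PresentedGroup.closure_range_of`).
-/

set_option autoImplicit false

namespace Pool.Agent.Work.MP_d3656f_al

open MonoidAlgebra

theorem sP_zero {g : ℕ} : (sP 0 : SG g) = 1 := by
  unfold sP
  simp

private theorem take_succ {α : Type*} [Monoid α] {g : ℕ} (f : Fin g → α) (i : Fin g) :
    (((List.finRange g).take ((i : ℕ) + 1)).map f).prod = (((List.finRange g).take (i : ℕ)).map f).prod * f i := by
  have h : (List.finRange g).take ((i : ℕ) + 1) = (List.finRange g).take (i : ℕ) ++ [i] := by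
    rw [List.take_succ_eq_append_getElem (by simp)]
    simp
  rw [h, List.map_append, List.prod_append, List.map_singleton, List.prod_singleton]

theorem sP_succ {g : ℕ} (i : Fin g) : (sP ((i : ℕ) + 1) : SG g) =
    sP (i : ℕ) * sg (Sum.inl i) * sg (Sum.inr i) * (sg (Sum.inl i))⁻¹ * (sg (Sum.inr i))⁻¹ := by
  unfold sP
  rw [take_succ]
  simp only [mul_assoc]

theorem sP_top {g : ℕ} : (sP g : SG g) = 1 := by
  unfold sP
  rw [List.take_of_length_le (by simp)]
  have h := PresentedGroup.one_of_mem (rels := ({((List.finRange g).map (fun i : Fin g =>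
        FreeGroup.of (Sum.inl i) * FreeGroup.of (Sum.inr i) *
          (FreeGroup.of (Sum.inl i))⁻¹ * (FreeGroup.of (Sum.inr i))⁻¹)).prod} :
      Set (FreeGroup (Fin g ⊕ Fin g)))) (Set.mem_singleton _)
  rw [map_list_prod, List.map_map] at h
  exact h

private theorem coeff_ms {G : Type*} [Group G] (x : MonoidAlgebra ℤ G) (p v : G) :
    (x * single p 1).coeff v = x.coeff (v * p⁻¹) := by
  rw [coeff_mul_single_eq_coeff_mul (v * p⁻¹) (fun m' _ => eq_mul_inv_iff_mul_eq.symm), mul_one]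

theorem coeff_mul_fD {g : ℕ} (x : MonoidAlgebra ℤ (SG g)) (k : Fin g ⊕ Fin g) (v : SG g) :
    (x * fD k).coeff v = d2 (fun u => x.coeff u) k v := by
  rcases k with i | i
  · change (x * (single (pa i) 1 - single (ma i) 1)).coeff v = x.coeff (v * (pa i)⁻¹) - x.coeff (v * (ma i)⁻¹)
    rw [mul_sub, coeff_sub, Finsupp.sub_apply, coeff_ms, coeff_ms]
  · change (x * (single (pb i) 1 - single (mb i) 1)).coeff v = x.coeff (v * (pb i)⁻¹) - x.coeff (v * (mb i)⁻¹)
    rw [mul_sub, coeff_sub, Finsupp.sub_apply, coeff_ms, coeff_ms]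

theorem coeff_sum_d1 {g : ℕ} (x : Fin g ⊕ Fin g → MonoidAlgebra ℤ (SG g)) (v : SG g) :
    (∑ j, x j * (single (sg j) 1 - 1)).coeff v = d1 (fun j u => (x j).coeff u) v := by
  unfold d1
  rw [coeff_sum, Finsupp.finset_sum_apply]
  refine Finset.sum_congr rfl fun j _ => ?_
  rw [mul_sub, mul_one, coeff_sub, Finsupp.sub_apply, coeff_ms]

private theorem ss {G : Type*} [Group G] (x y : G) :
    (single x 1 * single y 1 : MonoidAlgebra ℤ G) = single (x * y) 1 := by
  rw [single_mul_single, one_mul]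

theorem sum_fD {g : ℕ} :
    ∑ k : Fin g ⊕ Fin g, (fD k : MonoidAlgebra ℤ (SG g)) * (single (sg k) 1 - 1) = 0 := by
  rw [Fintype.sum_sum_type, ← Finset.sum_add_distrib]
  have h1 : ∀ i : Fin g, (fD (Sum.inl i) : MonoidAlgebra ℤ (SG g)) * (single (sg (Sum.inl i)) 1 - 1) +
      (fD (Sum.inr i) : MonoidAlgebra ℤ (SG g)) * (single (sg (Sum.inr i)) 1 - 1) =
      single (sP ((i : ℕ) + 1)) 1 - single (sP (i : ℕ)) 1 := by
    intro i
    change (single (pa i) 1 - single (ma i) 1 : MonoidAlgebra ℤ (SG g)) * (single (sg (Sum.inl i)) 1 - 1) +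
      (single (pb i) 1 - single (mb i) 1) * (single (sg (Sum.inr i)) 1 - 1) = _
    rw [sub_mul, sub_mul, mul_sub, mul_sub, mul_sub, mul_sub, ss, ss, ss, ss, mul_one, mul_one, mul_one, mul_one]
    have e1 : pa i * sg (Sum.inl i) = pb i := rfl
    have e2 : ma i * sg (Sum.inl i) = pb i * sg (Sum.inr i) := by
      unfold ma pb
      rw [inv_mul_cancel_right]
    have e3 : mb i * sg (Sum.inr i) = ma i := by
      unfold mb ma
      rw [sP_succ, inv_mul_cancel_right]
    have e4 : (mb i : SG g) = sP ((i : ℕ) + 1) := rfl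
    have e5 : (pa i : SG g) = sP (i : ℕ) := rfl
    rw [e1, e2, e3, e4, e5]
    abel
  rw [Finset.sum_congr rfl fun i _ => h1 i]
  rw [Fin.sum_univ_eq_sum_range (fun i => (single (sP (i + 1)) 1 - single (sP i) 1 : MonoidAlgebra ℤ (SG g))) g,
    Finset.sum_range_sub (fun i => (single (sP i) 1 : MonoidAlgebra ℤ (SG g))), sP_top, sP_zero, sub_self]

/-- the submodule of the multiples of the Fox derivatives -/
private noncomputable def foxN (g : ℕ) : Submodule (MonoidAlgebra ℤ (SG g)) (Fin g ⊕ Fin g → MonoidAlgebra ℤ (SG g)) :=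
  LinearMap.range (LinearMap.toSpanSingleton (MonoidAlgebra ℤ (SG g)) (Fin g ⊕ Fin g → MonoidAlgebra ℤ (SG g))
    (fun j => fD j))

private abbrev foxE (g : ℕ) : Type := (Fin g ⊕ Fin g → MonoidAlgebra ℤ (SG g)) ⧸ foxN g

private noncomputable def foxe {g : ℕ} (j : Fin g ⊕ Fin g) : foxE g :=
  (foxN g).mkQ (Pi.single j 1)

private theorem foxe_sum {g : ℕ} (x : Fin g ⊕ Fin g → MonoidAlgebra ℤ (SG g)) :
    ∑ j, x j • foxe j = (foxN g).mkQ x := by
  have h : x = ∑ j, x j • (Pi.single j 1 : Fin g ⊕ Fin g → MonoidAlgebra ℤ (SG g)) := by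
    funext k
    rw [Finset.sum_apply, Finset.sum_eq_single k]
    · simp
    · intro j _ hj
      rw [Pi.smul_apply, Pi.single_eq_of_ne hj.symm, smul_zero]
    · intro hk
      exact absurd (Finset.mem_univ k) hk
  conv_rhs => rw [h]
  rw [map_sum]
  exact Finset.sum_congr rfl fun j _ => (map_smul _ _ _).symm

private theorem fox_inv {g : ℕ} (x : SG g) (e : foxE g) :
    (single x 1 : MonoidAlgebra ℤ (SG g)) • ((single x⁻¹ 1 : MonoidAlgebra ℤ (SG g)) • e) = e := by
  rw [smul_smul, ss, mul_inv_cancel, ← one_def, one_smul]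

private theorem fox_inv' {g : ℕ} (x : SG g) (e : foxE g) :
    (single x⁻¹ 1 : MonoidAlgebra ℤ (SG g)) • ((single x 1 : MonoidAlgebra ℤ (SG g)) • e) = e := by
  rw [smul_smul, ss, inv_mul_cancel, ← one_def, one_smul]

/-- the affine map of a generator -/
private noncomputable def foxp {g : ℕ} (j : Fin g ⊕ Fin g) : Equiv.Perm (foxE g) where
  toFun e := (single (sg j) 1 : MonoidAlgebra ℤ (SG g)) • e + foxe j
  invFun e := (single (sg j)⁻¹ 1 : MonoidAlgebra ℤ (SG g)) • (e - foxe j)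
  left_inv e := by
    change (single (sg j)⁻¹ 1 : MonoidAlgebra ℤ (SG g)) •
      (((single (sg j) 1 : MonoidAlgebra ℤ (SG g)) • e + foxe j) - foxe j) = e
    rw [add_sub_cancel_right, fox_inv']
  right_inv e := by
    change (single (sg j) 1 : MonoidAlgebra ℤ (SG g)) •
      ((single (sg j)⁻¹ 1 : MonoidAlgebra ℤ (SG g)) • (e - foxe j)) + foxe j = e
    rw [fox_inv, sub_add_cancel]

private theorem foxp_apply {g : ℕ} (j : Fin g ⊕ Fin g) (e : foxE g) :
    foxp j e = (single (sg j) 1 : MonoidAlgebra ℤ (SG g)) • e + foxe j := rfl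

private theorem foxp_inv_apply {g : ℕ} (j : Fin g ⊕ Fin g) (e : foxE g) :
    (foxp j)⁻¹ e = (single (sg j)⁻¹ 1 : MonoidAlgebra ℤ (SG g)) • (e - foxe j) := rfl

private theorem fox_comm {g : ℕ} (i : Fin g) (e : foxE g) :
    (foxp (Sum.inl i) * foxp (Sum.inr i) * (foxp (Sum.inl i))⁻¹ * (foxp (Sum.inr i))⁻¹) e =
      (single (sg (Sum.inl i) * sg (Sum.inr i) * (sg (Sum.inl i))⁻¹ * (sg (Sum.inr i))⁻¹) 1 :
        MonoidAlgebra ℤ (SG g)) • e +
      ((1 - single (sg (Sum.inl i) * sg (Sum.inr i) * (sg (Sum.inl i))⁻¹) 1 : MonoidAlgebra ℤ (SG g)) • foxe (Sum.inl i) +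
       (single (sg (Sum.inl i)) 1 - single (sg (Sum.inl i) * sg (Sum.inr i) * (sg (Sum.inl i))⁻¹ * (sg (Sum.inr i))⁻¹) 1 :
        MonoidAlgebra ℤ (SG g)) • foxe (Sum.inr i)) := by
  rw [Equiv.Perm.mul_apply, Equiv.Perm.mul_apply, Equiv.Perm.mul_apply, foxp_apply, foxp_apply, foxp_inv_apply,
    foxp_inv_apply]
  simp only [smul_add, smul_sub, smul_smul, ss, sub_smul, one_smul, mul_assoc]
  abel

private theorem fox_rel {g : ℕ} (i : ℕ) (hi : i ≤ g) (e : foxE g) :
    (((List.finRange g).take i).map (fun k : Fin g =>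
      foxp (Sum.inl k) * foxp (Sum.inr k) * (foxp (Sum.inl k))⁻¹ * (foxp (Sum.inr k))⁻¹)).prod e =
      (single (sP i) 1 : MonoidAlgebra ℤ (SG g)) • e +
        ∑ k ∈ Finset.univ.filter (fun k : Fin g => (k : ℕ) < i), (fD (Sum.inl k) • foxe (Sum.inl k) + fD (Sum.inr k) • foxe (Sum.inr k)) := by
  induction i generalizing e with
  | zero =>
    rw [sP_zero, ← one_def, one_smul]
    simp
  | succ i ih =>
    have hi' : i < g := hi
    rw [take_succ (fun k : Fin g =>
      foxp (Sum.inl k) * foxp (Sum.inr k) * (foxp (Sum.inl k))⁻¹ * (foxp (Sum.inr k))⁻¹) ⟨i, hi'⟩,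
      Equiv.Perm.mul_apply, ih (by omega), fox_comm]
    have hS : Finset.univ.filter (fun k : Fin g => (k : ℕ) < i + 1) =
        insert ⟨i, hi'⟩ (Finset.univ.filter (fun k : Fin g => (k : ℕ) < i)) := by
      ext k
      simp only [Finset.mem_filter, Finset.mem_univ, true_and, Finset.mem_insert, Fin.ext_iff]
      omega
    rw [hS, Finset.sum_insert (by simp)]
    have e1 : (fD (Sum.inl (⟨i, hi'⟩ : Fin g)) : MonoidAlgebra ℤ (SG g)) =
        single (sP i) 1 * (1 - single (sg (Sum.inl ⟨i, hi'⟩) * sg (Sum.inr ⟨i, hi'⟩) * (sg (Sum.inl ⟨i, hi'⟩))⁻¹) 1) := by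
      rw [mul_sub, mul_one, ss]
      change single (sP i) 1 - single (sP i * sg (Sum.inl ⟨i, hi'⟩) * sg (Sum.inr ⟨i, hi'⟩) * (sg (Sum.inl ⟨i, hi'⟩))⁻¹) 1 = _
      simp only [mul_assoc]
    have e2 : (fD (Sum.inr (⟨i, hi'⟩ : Fin g)) : MonoidAlgebra ℤ (SG g)) =
        single (sP i) 1 * (single (sg (Sum.inl ⟨i, hi'⟩)) 1 - single (sg (Sum.inl ⟨i, hi'⟩) * sg (Sum.inr ⟨i, hi'⟩) *
          (sg (Sum.inl ⟨i, hi'⟩))⁻¹ * (sg (Sum.inr ⟨i, hi'⟩))⁻¹) 1) := by
      rw [mul_sub, ss, ss]
      change single (sP i * sg (Sum.inl ⟨i, hi'⟩)) 1 - single (sP (i + 1)) 1 = _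
      have := sP_succ (⟨i, hi'⟩ : Fin g)
      change sP (i + 1) = sP i * _ * _ * _ * _ at this
      rw [this]
      simp only [mul_assoc]
    have e3 : (single (sP (i + 1)) 1 : MonoidAlgebra ℤ (SG g)) = single (sP i) 1 * single (sg (Sum.inl ⟨i, hi'⟩) *
        sg (Sum.inr ⟨i, hi'⟩) * (sg (Sum.inl ⟨i, hi'⟩))⁻¹ * (sg (Sum.inr ⟨i, hi'⟩))⁻¹) 1 := by
      rw [ss]
      have := sP_succ (⟨i, hi'⟩ : Fin g)
      change sP (i + 1) = sP i * _ * _ * _ * _ at this
      rw [this]
      simp only [mul_assoc]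
    rw [e1, e2, e3, smul_add, smul_add, smul_smul, smul_smul, smul_smul]
    abel

private theorem fox_lift {g : ℕ} : ∀ r ∈ ({((List.finRange g).map (fun i : Fin g =>
        FreeGroup.of (Sum.inl i) * FreeGroup.of (Sum.inr i) *
          (FreeGroup.of (Sum.inl i))⁻¹ * (FreeGroup.of (Sum.inr i))⁻¹)).prod} :
      Set (FreeGroup (Fin g ⊕ Fin g))), FreeGroup.lift (foxp (g := g)) r = 1 := by
  intro r hr
  rw [Set.mem_singleton_iff] at hr
  subst hr
  rw [map_list_prod, List.map_map]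
  have h0 : ((List.finRange g).map ((FreeGroup.lift (foxp (g := g))) ∘ fun i : Fin g =>
      FreeGroup.of (Sum.inl i) * FreeGroup.of (Sum.inr i) *
          (FreeGroup.of (Sum.inl i))⁻¹ * (FreeGroup.of (Sum.inr i))⁻¹)) = (((List.finRange g).take g).map (fun k : Fin g =>
      foxp (Sum.inl k) * foxp (Sum.inr k) * (foxp (Sum.inl k))⁻¹ * (foxp (Sum.inr k))⁻¹)) := by
    rw [List.take_of_length_le (by simp)]
    refine List.map_congr_left fun i _ => ?_
    simp only [Function.comp_apply, map_mul, map_inv, FreeGroup.lift_apply_of]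
  rw [h0]
  refine Equiv.ext fun e => ?_
  rw [fox_rel g le_rfl, sP_top, ← one_def, one_smul, Equiv.Perm.one_apply]
  have h1 : ∑ k ∈ Finset.univ.filter (fun k : Fin g => (k : ℕ) < g), (fD (Sum.inl k) • foxe (Sum.inl k) +
      fD (Sum.inr k) • foxe (Sum.inr k)) = ∑ j : Fin g ⊕ Fin g, (fD j : MonoidAlgebra ℤ (SG g)) • foxe j := by
    rw [Fintype.sum_sum_type, ← Finset.sum_add_distrib, Finset.filter_true_of_mem fun k _ => k.2]
  rw [h1, foxe_sum]
  have h2 : (foxN g).mkQ (fun j => fD j) = 0 := by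
    rw [Submodule.mkQ_apply, Submodule.Quotient.mk_eq_zero]
    exact ⟨1, by rw [LinearMap.toSpanSingleton_apply, one_smul]⟩
  rw [h2, add_zero]

/-- the crossed homomorphism -/
private noncomputable def foxψ (g : ℕ) : SG g →* Equiv.Perm (foxE g) := PresentedGroup.toGroup fox_lift

private theorem foxψ_of {g : ℕ} (j : Fin g ⊕ Fin g) : foxψ g (sg j) = foxp j := PresentedGroup.toGroup.of fox_lift

private theorem foxψ_aff {g : ℕ} (x : SG g) : ∀ e, foxψ g x e = (single x 1 : MonoidAlgebra ℤ (SG g)) • e + foxψ g x 0 := by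
  let K : Subgroup (SG g) :=
    { carrier := {x | ∀ e, foxψ g x e = (single x 1 : MonoidAlgebra ℤ (SG g)) • e + foxψ g x 0}
      one_mem' := by
        intro e
        rw [map_one, Equiv.Perm.one_apply, Equiv.Perm.one_apply, ← one_def, one_smul, add_zero]
      mul_mem' := by
        intro x y hx hy e
        rw [map_mul, Equiv.Perm.mul_apply, Equiv.Perm.mul_apply, hy e, hx, hx (foxψ g y 0), smul_add, smul_smul, ss,
          add_assoc]
      inv_mem' := by
        intro x hx e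
        have h1 : ∀ f : foxE g, foxψ g x⁻¹ f = (single x⁻¹ 1 : MonoidAlgebra ℤ (SG g)) • (f - foxψ g x 0) := by
          intro f
          rw [map_inv, Equiv.Perm.inv_eq_iff_eq, hx, fox_inv, sub_add_cancel]
        rw [h1 e, h1 0, smul_sub, smul_sub, smul_zero, zero_sub, sub_eq_add_neg] }
  have hK : x ∈ K := PresentedGroup.generated_by _ K (fun j => by
    intro e
    have h1 : foxψ g (PresentedGroup.of j) = foxp j := foxψ_of j
    rw [h1, foxp_apply, foxp_apply, smul_zero, zero_add]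
    rfl) x
  exact hK

private noncomputable def foxD {g : ℕ} (x : SG g) : foxE g := foxψ g x 0

private theorem foxD_mul {g : ℕ} (x y : SG g) :
    foxD (x * y) = (single x 1 : MonoidAlgebra ℤ (SG g)) • foxD y + foxD x := by
  unfold foxD
  rw [map_mul, Equiv.Perm.mul_apply, foxψ_aff x (foxψ g y 0)]

private theorem foxD_sg {g : ℕ} (j : Fin g ⊕ Fin g) : foxD (sg j) = foxe j := by
  unfold foxD
  rw [foxψ_of, foxp_apply, smul_zero, zero_add]

private noncomputable def foxDD (g : ℕ) : MonoidAlgebra ℤ (SG g) →+ foxE g :=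
  (Finsupp.liftAddHom (fun v : SG g => zmultiplesHom (foxE g) (foxD v))).comp
    (coeffAddEquiv : MonoidAlgebra ℤ (SG g) ≃+ (SG g →₀ ℤ)).toAddMonoidHom

private theorem foxDD_single {g : ℕ} (v : SG g) (r : ℤ) : foxDD g (single v r) = r • foxD v := by
  change Finsupp.liftAddHom (fun v : SG g => zmultiplesHom (foxE g) (foxD v)) (Finsupp.single v r) = _
  rw [Finsupp.liftAddHom_apply_single]
  rfl

private theorem single_smulE {g : ℕ} (v : SG g) (r : ℤ) (e : foxE g) :
    (single v r : MonoidAlgebra ℤ (SG g)) • e = r • ((single v 1 : MonoidAlgebra ℤ (SG g)) • e) := by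
  have h : (single v r : MonoidAlgebra ℤ (SG g)) = r • single v 1 := by
    rw [smul_single, smul_eq_mul, mul_one]
  rw [h, smul_assoc]

private theorem foxDD_key {g : ℕ} (j : Fin g ⊕ Fin g) (y : MonoidAlgebra ℤ (SG g)) :
    foxDD g (y * (single (sg j) 1 - 1)) = y • foxe j := by
  induction y using MonoidAlgebra.induction_linear with
  | zero => rw [zero_mul, map_zero, zero_smul]
  | add x y hx hy => rw [add_mul, map_add, hx, hy, add_smul]
  | single v r =>
    rw [mul_sub, mul_one, single_mul_single, mul_one, map_sub, foxDD_single, foxDD_single, foxD_mul, foxD_sg,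
      single_smulE v r, smul_add, add_sub_cancel_right]

theorem fox_H1 {g : ℕ} (x : Fin g ⊕ Fin g → MonoidAlgebra ℤ (SG g))
    (h : ∑ j, x j * (single (sg j) 1 - 1) = 0) :
    ∃ m : MonoidAlgebra ℤ (SG g), ∀ j, x j = m * fD j := by
  have h1 : foxDD g (∑ j, x j * (single (sg j) 1 - 1)) = (foxN g).mkQ x := by
    rw [map_sum, ← foxe_sum]
    exact Finset.sum_congr rfl fun j _ => foxDD_key j (x j)
  rw [h, map_zero] at h1
  have h2 : x ∈ foxN g := by
    rw [← Submodule.Quotient.mk_eq_zero]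
    exact h1.symm
  obtain ⟨m, hm⟩ := h2
  refine ⟨m, fun j => ?_⟩
  rw [← hm]
  rfl

theorem fox_path {g : ℕ} (y : SG g) : ∃ w : Fin g ⊕ Fin g → MonoidAlgebra ℤ (SG g),
    ∑ j, w j * (single (sg j) 1 - 1) = single y 1 - 1 := by
  classical
  let K : Subgroup (SG g) :=
    { carrier := {y | ∃ w : Fin g ⊕ Fin g → MonoidAlgebra ℤ (SG g), ∑ j, w j * (single (sg j) 1 - 1) = single y 1 - 1}
      one_mem' := ⟨0, by simp [one_def]⟩
      mul_mem' := by
        rintro x y ⟨w, hw⟩ ⟨w', hw'⟩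
        refine ⟨fun j => w j + single x 1 * w' j, ?_⟩
        simp only [add_mul, mul_assoc, Finset.sum_add_distrib]
        rw [← Finset.mul_sum, hw, hw', mul_sub, mul_one, ss]
        abel
      inv_mem' := by
        rintro x ⟨w, hw⟩
        refine ⟨fun j => -(single x⁻¹ 1 * w j), ?_⟩
        simp only [neg_mul, mul_assoc, Finset.sum_neg_distrib]
        rw [← Finset.mul_sum, hw, mul_sub, mul_one, ss, inv_mul_cancel, ← one_def]
        abel }
  have hK : y ∈ K := PresentedGroup.generated_by _ K (fun j => by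
    refine ⟨Pi.single j 1, ?_⟩
    rw [Finset.sum_eq_single j]
    · rw [Pi.single_eq_same, one_mul]
      rfl
    · intro k _ hk
      rw [Pi.single_eq_of_ne hk, zero_mul]
    · intro hj
      exact absurd (Finset.mem_univ j) hj) y
  exact hK

end Pool.Agent.Work.MP_d3656f_al
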