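import Mathlib
import Pool.Agent.Work.MP_d3656f_al.DefsI

/-!
# I/Sfun : summation over a group modulo a subgroup acting on the left

`Adm V F`: `F` is invariant under left multiplication by `V` and its support is finite modulo `V`.
`sfun`: let `S F` be the `finsum` over `Quotient (QuotientGroup.rightRel V)` of the function
induced by `F` (`0` if `F` is not invariant). Right multiplication by `u` induces a bijection of
the quotient, so `S` is shift invariant; it is additive on admissible functions (finite supports).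
`sum_class`: let `t : π → π` satisfy `t (x v) = t v` for `x ∈ V`, and `t v = t v' → v' ∈ V v`. Then
`t` induces a bijection from the quotient onto the range of `t`, so for finitely supported `f`:
`f ∘ t` is admissible and `S (f ∘ t) = Σᶠ y ∈ range t, f y`.
`single_pt`: if `V = ⊥` then `S (dl w) = 1`.
All four facts are claimed for one `S` so the statement is an existence statement.

`tot`: the twisted classes `Cl Φ γ = {(γ * Φ v)⁻¹ * v | v}` partition the group: `y ∈ Cl Φ y⁻¹`,
and two classes are equal or disjoint (`y' = (Φ v)⁻¹ y v` is an equivalence relation). Sum `f` over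
its finite support class by class.
-/

set_option autoImplicit false

namespace Pool.Agent.Work.MP_d3656f_al

/-- Invariant functions with support finite modulo `V`. -/
def Adm {π : Type} [Group π] (V : Subgroup π) (F : π → ℤ) : Prop :=
  (∀ x ∈ V, ∀ v : π, F (x * v) = F v) ∧
    ∃ E : Set π, E.Finite ∧ ∀ v : π, F v ≠ 0 → ∃ x ∈ V, ∃ f ∈ E, v = x * f

/-- The twisted conjugacy class. -/
def Cl {π : Type} [Group π] (Φ : MulAut π) (γ : π) : Set π := {y | ∃ v : π, y = (γ * Φ v)⁻¹ * v}

theorem sfun {π : Type} [Group π] (V : Subgroup π) : ∃ S : (π → ℤ) → ℤ,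
    (∀ F F' : π → ℤ, Adm V F → Adm V F' → S (fun v => F v + F' v) = S F + S F') ∧
    (∀ F : π → ℤ, Adm V F → ∀ u : π, S (fun v => F (v * u)) = S F) ∧
    (∀ t : π → π, (∀ x ∈ V, ∀ v, t (x * v) = t v) →
      (∀ v v', t v = t v' → ∃ x ∈ V, v' = x * v) → ∀ f : π → ℤ, (Function.support f).Finite →
        S (fun v => f (t v)) = ∑ᶠ y ∈ Set.range t, f y) ∧
    (V = ⊥ → ∀ w : π, S (dl w) = 1) := by
  classical
  have hrel : ∀ v : π, ∃ x ∈ V,
      (Quotient.mk (QuotientGroup.rightRel V) v).out = x * v := by
    intro v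
    have h1 : (Quotient.mk (QuotientGroup.rightRel V)
        (Quotient.mk (QuotientGroup.rightRel V) v).out) = Quotient.mk _ v := Quotient.out_eq _
    have h2 := Quotient.exact h1
    have h3 := QuotientGroup.rightRel_apply.1 h2
    refine ⟨((Quotient.mk (QuotientGroup.rightRel V) v).out) * v⁻¹, ?_, by group⟩
    have h4 := V.inv_mem h3
    rw [mul_inv_rev, inv_inv] at h4
    exact h4
  have hmk : ∀ x ∈ V, ∀ v : π, (Quotient.mk (QuotientGroup.rightRel V) (x * v)) =
      Quotient.mk (QuotientGroup.rightRel V) v := by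
    intro x hx v
    apply Quotient.sound
    apply QuotientGroup.rightRel_apply.2
    have h4 : v * (x * v)⁻¹ = x⁻¹ := by group
    rw [h4]
    exact V.inv_mem hx
  have hout : ∀ F : π → ℤ, (∀ x ∈ V, ∀ v, F (x * v) = F v) → ∀ v : π,
      F (Quotient.mk (QuotientGroup.rightRel V) v).out = F v := by
    intro F hF v
    obtain ⟨x, hx, h1⟩ := hrel v
    rw [h1, hF x hx v]
  have hfin : ∀ F : π → ℤ, Adm V F →
      (Function.support fun q : Quotient (QuotientGroup.rightRel V) => F q.out).Finite := by
    rintro F ⟨hF, E, hE, h1⟩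
    refine (hE.image (fun f => Quotient.mk (QuotientGroup.rightRel V) f)).subset fun q hq => ?_
    obtain ⟨x, hx, f, hf, h2⟩ := h1 q.out hq
    refine ⟨f, hf, ?_⟩
    change Quotient.mk (QuotientGroup.rightRel V) f = q
    rw [← hmk x hx f, ← h2]
    exact Quotient.out_eq q
  refine ⟨fun F => ∑ᶠ q : Quotient (QuotientGroup.rightRel V), F q.out, ?_, ?_, ?_, ?_⟩
  · intro F F' hF hF'
    exact finsum_add_distrib (hfin F hF) (hfin F' hF')
  · intro F hF u
    have hw : ∀ u : π, ∀ a b : π, (QuotientGroup.rightRel V) a b →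
        (QuotientGroup.rightRel V) (a * u) (b * u) := by
      intro u a b hab
      apply QuotientGroup.rightRel_apply.2
      have h1 := QuotientGroup.rightRel_apply.1 hab
      have h2 : b * u * (a * u)⁻¹ = b * a⁻¹ := by group
      rw [h2]
      exact h1
    obtain ⟨σ, hσ⟩ : ∃ σ : Quotient (QuotientGroup.rightRel V) ≃
        Quotient (QuotientGroup.rightRel V), ∀ v : π,
        σ (Quotient.mk (QuotientGroup.rightRel V) v) =
          Quotient.mk (QuotientGroup.rightRel V) (v * u) := by
      refine ⟨⟨Quotient.map (fun v => v * u) (hw u), Quotient.map (fun v => v * u⁻¹) (hw u⁻¹),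
        ?_, ?_⟩, fun v => rfl⟩
      · intro q
        induction q using Quotient.inductionOn with
        | h v =>
          change Quotient.mk (QuotientGroup.rightRel V) (v * u * u⁻¹) = _
          rw [mul_inv_cancel_right]
      · intro q
        induction q using Quotient.inductionOn with
        | h v =>
          change Quotient.mk (QuotientGroup.rightRel V) (v * u⁻¹ * u) = _
          rw [inv_mul_cancel_right]
    change (∑ᶠ q : Quotient (QuotientGroup.rightRel V), F (q.out * u)) =
      ∑ᶠ q : Quotient (QuotientGroup.rightRel V), F q.out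
    rw [← finsum_comp_equiv σ (f := fun q : Quotient (QuotientGroup.rightRel V) => F q.out)]
    refine finsum_congr fun q => ?_
    have h1 : σ q = Quotient.mk (QuotientGroup.rightRel V) (q.out * u) := by
      rw [← hσ q.out, Quotient.out_eq]
    rw [h1, hout F hF.1]
  · intro t ht1 ht2 f _
    have hinj : Function.Injective fun q : Quotient (QuotientGroup.rightRel V) => t q.out := by
      intro a b hab
      obtain ⟨x, hx, h1⟩ := ht2 _ _ hab
      rw [← Quotient.out_eq a, ← Quotient.out_eq b, h1]
      exact (hmk x hx _).symm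
    have hran : Set.range t =
        Set.range fun q : Quotient (QuotientGroup.rightRel V) => t q.out := by
      ext y
      constructor
      · rintro ⟨v, rfl⟩
        refine ⟨Quotient.mk (QuotientGroup.rightRel V) v, ?_⟩
        obtain ⟨x, hx, h1⟩ := hrel v
        change t (Quotient.mk (QuotientGroup.rightRel V) v).out = t v
        rw [h1, ht1 x hx v]
      · rintro ⟨q, rfl⟩
        exact ⟨q.out, rfl⟩
    rw [hran, finsum_mem_range hinj]
  · intro hV w
    have h1 : ∀ v : π, (Quotient.mk (QuotientGroup.rightRel V) v).out = v := by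
      intro v
      obtain ⟨x, hx, h2⟩ := hrel v
      rw [hV, Subgroup.mem_bot] at hx
      rw [h2, hx, one_mul]
    have h2 := finsum_eq_single (fun q : Quotient (QuotientGroup.rightRel V) => dl w q.out)
      (Quotient.mk (QuotientGroup.rightRel V) w) (fun q hq => by
        unfold dl
        rw [if_neg]
        intro h3
        apply hq
        rw [← h3, Quotient.out_eq])
    change (∑ᶠ q : Quotient (QuotientGroup.rightRel V), dl w q.out) = 1
    rw [h2, h1 w]
    unfold dl
    rw [if_pos rfl]

theorem adm_add {π : Type} [Group π] {V : Subgroup π} {F F' : π → ℤ} (h : Adm V F)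
    (h' : Adm V F') : Adm V (fun v => F v + F' v) := by
  obtain ⟨h1, E, hE, h2⟩ := h
  obtain ⟨h1', E', hE', h2'⟩ := h'
  refine ⟨fun x hx v => ?_, E ∪ E', hE.union hE', fun v hv => ?_⟩
  · change F (x * v) + F' (x * v) = F v + F' v
    rw [h1 x hx v, h1' x hx v]
  · by_cases hF : F v = 0
    · have hF' : F' v ≠ 0 := by
        intro h3
        apply hv
        change F v + F' v = 0
        rw [hF, h3, add_zero]
      obtain ⟨x, hx, f, hf, h3⟩ := h2' v hF'
      exact ⟨x, hx, f, Or.inr hf, h3⟩
    · obtain ⟨x, hx, f, hf, h3⟩ := h2 v hF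
      exact ⟨x, hx, f, Or.inl hf, h3⟩

theorem adm_neg {π : Type} [Group π] {V : Subgroup π} {F : π → ℤ} (h : Adm V F) :
    Adm V (fun v => - F v) := by
  obtain ⟨h1, E, hE, h2⟩ := h
  refine ⟨fun x hx v => ?_, E, hE, fun v hv => ?_⟩
  · change -F (x * v) = -F v
    rw [h1 x hx v]
  · apply h2 v
    intro h3
    apply hv
    change -F v = 0
    rw [h3, neg_zero]

theorem adm_shift {π : Type} [Group π] {V : Subgroup π} {F : π → ℤ} (h : Adm V F) (u : π) :
    Adm V (fun v => F (v * u)) := by
  obtain ⟨h1, E, hE, h2⟩ := h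
  refine ⟨fun x hx v => ?_, (fun f => f * u⁻¹) '' E, hE.image _, fun v hv => ?_⟩
  · change F (x * v * u) = F (v * u)
    rw [mul_assoc, h1 x hx]
  · obtain ⟨x, hx, f, hf, h3⟩ := h2 (v * u) hv
    refine ⟨x, hx, f * u⁻¹, ⟨f, hf, rfl⟩, ?_⟩
    rw [← mul_assoc, ← h3, mul_inv_cancel_right]

theorem tot {π : Type} [Group π] (Φ : MulAut π) (f : π → ℤ) (hf : (Function.support f).Finite)
    (h : ∀ γ : π, 0 ≤ ∑ᶠ y ∈ Cl Φ γ, f y) : 0 ≤ ∑ᶠ y, f y := by
  classical
  obtain ⟨c, hc⟩ : ∃ c : π → Set π, ∀ y, c y = Cl Φ y⁻¹ := ⟨_, fun y => rfl⟩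
  have hmem : ∀ y z, z ∈ c y ↔ ∃ v, z = (Φ v)⁻¹ * y * v := by
    intro y z
    rw [hc]
    constructor
    · rintro ⟨v, hv⟩
      exact ⟨v, by rw [hv]; group⟩
    · rintro ⟨v, hv⟩
      exact ⟨v, by rw [hv]; group⟩
  have hself : ∀ y, y ∈ c y := fun y => (hmem y y).2 ⟨1, by simp⟩
  have hsub : ∀ y z, z ∈ c y → c z ⊆ c y := by
    intro y z hz u hu
    obtain ⟨v, hv⟩ := (hmem y z).1 hz
    obtain ⟨v', hv'⟩ := (hmem z u).1 hu
    exact (hmem y u).2 ⟨v * v', by rw [hv', hv, map_mul]; group⟩
  have hsymm : ∀ y z, z ∈ c y → y ∈ c z := by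
    intro y z hz
    obtain ⟨v, hv⟩ := (hmem y z).1 hz
    exact (hmem z y).2 ⟨v⁻¹, by rw [hv, map_inv]; group⟩
  have heq : ∀ y z, z ∈ c y ↔ c z = c y := by
    intro y z
    constructor
    · intro hz
      exact Set.Subset.antisymm (hsub y z hz) (hsub z y (hsymm y z hz))
    · intro h1
      rw [← h1]
      exact hself z
  have h1 : ∑ᶠ y, f y = ∑ y ∈ hf.toFinset, f y :=
    finsum_eq_sum_of_support_subset f (by rw [Set.Finite.coe_toFinset])
  rw [h1, ← Finset.sum_fiberwise_of_maps_to (s := hf.toFinset) (t := hf.toFinset.image c)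
    (g := c) (fun y hy => Finset.mem_image_of_mem c hy)]
  refine Finset.sum_nonneg fun C hC => ?_
  obtain ⟨y₀, _, rfl⟩ := Finset.mem_image.1 hC
  have h2 := h y₀⁻¹
  rw [← hc y₀] at h2
  rw [finsum_mem_eq_sum_of_inter_support_eq f (t := hf.toFinset.filter fun y => c y = c y₀)] at h2
  · exact h2
  · ext y
    simp only [Set.mem_inter_iff, Function.mem_support, Finset.coe_filter, Set.Finite.mem_toFinset,
      Set.mem_ofPred_eq]
    rw [heq y₀ y]
    tauto

end Pool.Agent.Work.MP_d3656f_al
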