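import Mathlib
import Pool.Agent.Work.MP_d3656f_al.I.Fox
import Pool.Agent.Work.MP_d3656f_al.I.Sfun
import Pool.Agent.Work.MP_d3656f_al.M.Act

/-!
# I/TRd : the homotopy (definition only, FIXED)

`τ v = γ * Φ v`; `H0 v j u = K.K0 (τ v) j u`; `H1f v j u = Σ_k Σ_w (T.W j k)(w) K.K1 (τ v * w) k u`.
-/

set_option autoImplicit false

namespace Pool.Agent.Work.MP_d3656f_al

/-- The homotopy on edges. -/
noncomputable def H1f {g : ℕ} {M : Model (SG g)} {C : ℝ} {p : V} {e : SG g → ℤ}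
    (K : KD M C p e) {Φ : MulAut (SG g)} (T : TD Φ) (γ v : SG g) (j : Fin g ⊕ Fin g)
    (u : SG g) : ℤ :=
  ∑ k, (T.W j k).coeff.sum fun w r => r * K.K1 (γ * Φ v * w) k u

end Pool.Agent.Work.MP_d3656f_al
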