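import Mathlib
import Pool.Agent.Work.MP_d3656f_al.I.TRd

/-!
# I/TRa : the two identities of the homotopy

`τ v = γ * Φ v`, `τ (v s) = τ v * Φ s`.
`H1_d2`: `d2` is additive. By `K.h1` the left side is
`Σ_{k', w} (T.W j k')(w) [dl (τ v w, k') (u, k) - (K0 (τ v w sg k') k u - K0 (τ v w) k u)]`. The first
part is `(T.W j k)((τ v)⁻¹ u)`. For the additive map `L : x ↦ Σ_w x(w) K0 (τ v w) k u` on the group
ring the last part is `L (Σ_{k'} W j k' (sg k' - 1)) = L (Φ (sg j) - 1)
= K0 (τ v Φ (sg j)) k u - K0 (τ v) k u` (`T.hW`).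
`H1_face`: for fixed `u`, `v` and the additive maps `L_k : x ↦ Σ_w x(w) K1 (τ v w) k u` the left side
is `Σ_k L_k (Σ_j mapR Φ (fD j) * W j k)` (because `H1f (v s) j u = Σ_k L_k (single (Φ s) 1 * W j k)`)
`= Σ_k L_k (c * fD k)` (`T.hc`) `= Σ_w c(w) * (the left side of K.h2 at τ v w)
= Σ_w c(w) dl (τ v w) u = c ((τ v)⁻¹ u)`.
-/

set_option autoImplicit false

namespace Pool.Agent.Work.MP_d3656f_al

open MonoidAlgebra

private noncomputable def pr {π : Type} [Group π] (f : π → ℤ) : MonoidAlgebra ℤ π →+ ℤ where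
  toFun x := x.coeff.sum fun w r => r * f w
  map_zero' := by simp
  map_add' x y := by
    rw [coeff_add, Finsupp.sum_add_index']
    · intro w; ring
    · intro w r r'; ring

private theorem pr_def {π : Type} [Group π] (f : π → ℤ) (x : MonoidAlgebra ℤ π) :
    pr f x = x.coeff.sum fun w r => r * f w := rfl

private theorem pr_single {π : Type} [Group π] (f : π → ℤ) (w : π) (r : ℤ) :
    pr f (single w r) = r * f w := by
  rw [pr_def, coeff_single, Finsupp.sum_single_index]
  ring

private theorem pr_single_mul {π : Type} [Group π] (f : π → ℤ) (s : π) (x : MonoidAlgebra ℤ π) :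
    pr f (single s 1 * x) = pr (fun w => f (s * w)) x := by
  induction x using MonoidAlgebra.induction_linear with
  | zero => rw [mul_zero, map_zero, map_zero]
  | add x y hx hy => rw [mul_add, map_add, map_add, hx, hy]
  | single w r => rw [single_mul_single, pr_single, pr_single, one_mul]

private theorem pr_mul_single {π : Type} [Group π] (f : π → ℤ) (s : π) (x : MonoidAlgebra ℤ π) :
    pr f (x * single s 1) = pr (fun w => f (w * s)) x := by
  induction x using MonoidAlgebra.induction_linear with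
  | zero => rw [zero_mul, map_zero, map_zero]
  | add x y hx hy => rw [add_mul, map_add, map_add, hx, hy]
  | single w r => rw [single_mul_single, pr_single, pr_single, mul_one]

private theorem pr_sub {π : Type} [Group π] (f f' : π → ℤ) (x : MonoidAlgebra ℤ π) :
    pr (fun w => f w - f' w) x = pr f x - pr f' x := by
  simp only [pr_def, Finsupp.sum]
  rw [← Finset.sum_sub_distrib]
  exact Finset.sum_congr rfl fun w _ => mul_sub _ _ _

private theorem pr_add {π : Type} [Group π] (f f' : π → ℤ) (x : MonoidAlgebra ℤ π) :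
    pr (fun w => f w + f' w) x = pr f x + pr f' x := by
  simp only [pr_def, Finsupp.sum]
  rw [← Finset.sum_add_distrib]
  exact Finset.sum_congr rfl fun w _ => mul_add _ _ _

private theorem pr_fsum {π ι : Type} [Group π] (s : Finset ι) (f : ι → π → ℤ)
    (x : MonoidAlgebra ℤ π) :
    pr (fun w => ∑ i ∈ s, f i w) x = ∑ i ∈ s, pr (f i) x := by
  simp only [pr_def, Finsupp.sum]
  rw [Finset.sum_comm]
  exact Finset.sum_congr rfl fun w _ => Finset.mul_sum _ _ _

private theorem pr_zero {π : Type} [Group π] (x : MonoidAlgebra ℤ π) :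
    pr (fun _ => (0 : ℤ)) x = 0 := by
  simp only [pr_def, Finsupp.sum, mul_zero, Finset.sum_const_zero]

private theorem pr_dl {π : Type} [Group π] (t u : π) (x : MonoidAlgebra ℤ π) :
    pr (fun w => dl (t * w) u) x = x.coeff (t⁻¹ * u) := by
  classical
  induction x using MonoidAlgebra.induction_linear with
  | zero => rw [map_zero]; simp
  | add x y hx hy => rw [map_add, hx, hy]; rfl
  | single w r =>
    rw [pr_single, coeff_single, Finsupp.single_apply]
    unfold dl
    by_cases h : u = t * w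
    · have h2 : w = t⁻¹ * u := by rw [h, inv_mul_cancel_left]
      rw [if_pos h, if_pos h2, mul_one]
    · have h2 : w ≠ t⁻¹ * u := fun h3 => h (by rw [h3, mul_inv_cancel_left])
      rw [if_neg h, if_neg h2, mul_zero]

private theorem H1f_pr {g : ℕ} {M : Model (SG g)} {C : ℝ} {p : V} {e : SG g → ℤ}
    (K : KD M C p e) {Φ : MulAut (SG g)} (T : TD Φ) (γ v : SG g) (j : Fin g ⊕ Fin g)
    (u : SG g) : H1f K T γ v j u = ∑ k, pr (fun w => K.K1 (γ * Φ v * w) k u) (T.W j k) := rfl

private theorem d2_pr {g : ℕ} {ι : Type} [Fintype ι] (F : ι → SG g → SG g → ℤ)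
    (x : ι → MonoidAlgebra ℤ (SG g)) (k : Fin g ⊕ Fin g) (u : SG g) :
    d2 (fun u' => ∑ k', pr (fun w => F k' w u') (x k')) k u
      = ∑ k', pr (fun w => d2 (F k' w) k u) (x k') := by
  rcases k with i | i
  · change (∑ k', pr (fun w => F k' w (u * (pa i)⁻¹)) (x k'))
        - (∑ k', pr (fun w => F k' w (u * (ma i)⁻¹)) (x k'))
      = ∑ k', pr (fun w => F k' w (u * (pa i)⁻¹) - F k' w (u * (ma i)⁻¹)) (x k')
    rw [← Finset.sum_sub_distrib]
    exact Finset.sum_congr rfl fun k' _ => (pr_sub _ _ _).symm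
  · change (∑ k', pr (fun w => F k' w (u * (pb i)⁻¹)) (x k'))
        - (∑ k', pr (fun w => F k' w (u * (mb i)⁻¹)) (x k'))
      = ∑ k', pr (fun w => F k' w (u * (pb i)⁻¹) - F k' w (u * (mb i)⁻¹)) (x k')
    rw [← Finset.sum_sub_distrib]
    exact Finset.sum_congr rfl fun k' _ => (pr_sub _ _ _).symm

theorem H1_d2 {g : ℕ} {M : Model (SG g)} {C : ℝ} {p : V} {e : SG g → ℤ} (K : KD M C p e)
    {Φ : MulAut (SG g)} (T : TD Φ) (γ v : SG g) (j k : Fin g ⊕ Fin g) (u : SG g) :
    d2 (H1f K T γ v j) k u = (T.W j k).coeff ((γ * Φ v)⁻¹ * u)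
      - (K.K0 (γ * Φ (v * sg j)) k u - K.K0 (γ * Φ v) k u) := by
  have h1 : d2 (H1f K T γ v j) k u
      = ∑ k', pr (fun w => d2 (K.K1 (γ * Φ v * w) k') k u) (T.W j k') :=
    d2_pr (fun k' w => K.K1 (γ * Φ v * w) k') (fun k' => T.W j k') k u
  rw [h1]
  simp only [K.h1]
  set f : SG g → ℤ := fun w => K.K0 (γ * Φ v * w) k u with hf
  have h2 : ∀ k', pr (fun w => dl (γ * Φ v * w, k') (u, k)
      - (K.K0 (γ * Φ v * w * sg k') k u - K.K0 (γ * Φ v * w) k u)) (T.W j k')
      = (if k' = k then (T.W j k).coeff ((γ * Φ v)⁻¹ * u) else 0)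
        - pr f (T.W j k' * (single (sg k') 1 - 1)) := by
    intro k'
    rw [pr_sub]
    congr 1
    · by_cases hk : k' = k
      · rw [if_pos hk, ← pr_dl, hk]
        congr 1
        congr 1
        funext w
        classical
        unfold dl
        by_cases h : u = γ * Φ v * w
        · rw [if_pos h, if_pos (by rw [h])]
        · rw [if_neg h, if_neg (fun h' => h (congrArg Prod.fst h'))]
      · rw [if_neg hk, ← pr_zero (T.W j k')]
        congr 1
        congr 1
        funext w
        classical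
        unfold dl
        rw [if_neg (fun h' => hk (congrArg Prod.snd h').symm)]
    · rw [mul_sub, mul_one, map_sub, pr_mul_single, ← pr_sub]
      congr 1
      congr 1
      funext w
      rw [hf]
      simp only [mul_assoc]
  rw [Finset.sum_congr rfl fun k' _ => h2 k', Finset.sum_sub_distrib, Finset.sum_ite_eq',
    if_pos (Finset.mem_univ k), ← map_sum, T.hW, map_sub, pr_single, one_def, pr_single]
  simp only [hf, one_mul, mul_one, map_mul, mul_assoc]

private theorem H1f_shift {g : ℕ} {M : Model (SG g)} {C : ℝ} {p : V} {e : SG g → ℤ}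
    (K : KD M C p e) {Φ : MulAut (SG g)} (T : TD Φ) (γ v s : SG g) (j : Fin g ⊕ Fin g)
    (u : SG g) : H1f K T γ (v * s) j u
      = ∑ k, pr (fun w => K.K1 (γ * Φ v * w) k u) (single (Φ s) 1 * T.W j k) := by
  rw [H1f_pr]
  refine Finset.sum_congr rfl fun k _ => ?_
  rw [pr_single_mul]
  congr 1
  congr 1
  funext w
  simp only [map_mul, mul_assoc]

private theorem mapR_single {g : ℕ} (Φ : MulAut (SG g)) (s : SG g) :
    mapR Φ (single s 1) = single (Φ s) 1 := by
  unfold mapR
  simp

theorem H1_face {g : ℕ} {M : Model (SG g)} {C : ℝ} {p : V} {e : SG g → ℤ} (K : KD M C p e)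
    {Φ : MulAut (SG g)} (T : TD Φ) (γ v u : SG g) :
    ∑ i : Fin g, (H1f K T γ (v * pa i) (Sum.inl i) u + H1f K T γ (v * pb i) (Sum.inr i) u
      - H1f K T γ (v * ma i) (Sum.inl i) u - H1f K T γ (v * mb i) (Sum.inr i) u)
      = T.c.coeff ((γ * Φ v)⁻¹ * u) := by
  set L : Fin g ⊕ Fin g → SG g → ℤ := fun k w => K.K1 (γ * Φ v * w) k u with hL
  have hl : ∀ i : Fin g, H1f K T γ (v * pa i) (Sum.inl i) u - H1f K T γ (v * ma i) (Sum.inl i) u
      = ∑ k, pr (L k) (mapR Φ (fD (Sum.inl i)) * T.W (Sum.inl i) k) := by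
    intro i
    rw [H1f_shift, H1f_shift, ← Finset.sum_sub_distrib]
    refine Finset.sum_congr rfl fun k _ => ?_
    have e1 : mapR Φ (fD (Sum.inl i)) = single (Φ (pa i)) 1 - single (Φ (ma i)) 1 := by
      change mapR Φ (single (pa i) 1 - single (ma i) 1) = _
      rw [map_sub, mapR_single, mapR_single]
    rw [e1, sub_mul, map_sub]
  have hr : ∀ i : Fin g, H1f K T γ (v * pb i) (Sum.inr i) u - H1f K T γ (v * mb i) (Sum.inr i) u
      = ∑ k, pr (L k) (mapR Φ (fD (Sum.inr i)) * T.W (Sum.inr i) k) := by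
    intro i
    rw [H1f_shift, H1f_shift, ← Finset.sum_sub_distrib]
    refine Finset.sum_congr rfl fun k _ => ?_
    have e1 : mapR Φ (fD (Sum.inr i)) = single (Φ (pb i)) 1 - single (Φ (mb i)) 1 := by
      change mapR Φ (single (pb i) 1 - single (mb i) 1) = _
      rw [map_sub, mapR_single, mapR_single]
    rw [e1, sub_mul, map_sub]
  have h1 : ∑ i : Fin g, (H1f K T γ (v * pa i) (Sum.inl i) u + H1f K T γ (v * pb i) (Sum.inr i) u
      - H1f K T γ (v * ma i) (Sum.inl i) u - H1f K T γ (v * mb i) (Sum.inr i) u)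
      = ∑ j, ∑ k, pr (L k) (mapR Φ (fD j) * T.W j k) := by
    rw [Fintype.sum_sum_type, ← Finset.sum_add_distrib]
    refine Finset.sum_congr rfl fun i _ => ?_
    rw [← hl, ← hr]
    ring
  rw [h1, Finset.sum_comm]
  have h2 : ∀ k, ∑ j, pr (L k) (mapR Φ (fD j) * T.W j k) = pr (L k) (T.c * fD k) := by
    intro k
    rw [T.hc, map_sum]
  rw [Finset.sum_congr rfl fun k _ => h2 k, Fintype.sum_sum_type, ← Finset.sum_add_distrib,
    ← pr_dl]
  have h3 : ∀ w, dl (γ * Φ v * w) u = ∑ i : Fin g,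
      (L (Sum.inl i) (w * pa i) + L (Sum.inr i) (w * pb i)
        - L (Sum.inl i) (w * ma i) - L (Sum.inr i) (w * mb i)) := by
    intro w
    rw [← K.h2]
    simp only [hL, mul_assoc]
  rw [show (fun w => dl (γ * Φ v * w) u) = fun w => ∑ i : Fin g,
      (L (Sum.inl i) (w * pa i) + L (Sum.inr i) (w * pb i)
        - L (Sum.inl i) (w * ma i) - L (Sum.inr i) (w * mb i)) from funext h3, pr_fsum]
  refine Finset.sum_congr rfl fun i _ => ?_
  rw [pr_sub, pr_sub, pr_add]
  have e1 : pr (L (Sum.inl i)) (T.c * fD (Sum.inl i))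
      = pr (fun w => L (Sum.inl i) (w * pa i)) T.c - pr (fun w => L (Sum.inl i) (w * ma i)) T.c := by
    change pr (L (Sum.inl i)) (T.c * (single (pa i) 1 - single (ma i) 1)) = _
    rw [mul_sub, map_sub, pr_mul_single, pr_mul_single]
  have e2 : pr (L (Sum.inr i)) (T.c * fD (Sum.inr i))
      = pr (fun w => L (Sum.inr i) (w * pb i)) T.c - pr (fun w => L (Sum.inr i) (w * mb i)) T.c := by
    change pr (L (Sum.inr i)) (T.c * (single (pb i) 1 - single (mb i) 1)) = _
    rw [mul_sub, map_sub, pr_mul_single, pr_mul_single]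
  rw [e1, e2]
  ring

end Pool.Agent.Work.MP_d3656f_al
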