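import Mathlib
import Pool.Agent.Work.MP_d3656f_al.I.TRd

/-!
# I/TRb : the functions of the trace formula are admissible

`τ v = γ * Φ v`; for `x ∈ Vg`: `τ (x v) = γ Φ x Φ v = x τ v`. Invariance: `K.e0`, `K.e1` (with
`hfix`). Finite support modulo `Vg`: if `K0 (τ (v u1)) j (v u2) ≠ 0` then by `K.s0`
`Bt C (pt (τ v Φ u1)) (pt (v u2)) p`, and since `q (τ v Φ u1) (τ v) = q (Φ u1) 1`,
`q (v u2) v = q u2 1` are independent of `v`, `Bt C' (pt (τ v)) (pt v) p` with `C'` independent of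
`v` (`Bt_move`), then `hfin C'`. For `H1f`: one of the finitely many `w` in the supports of the
`T.W j k` has `K1 (τ (v u1) w) k (v u2) ≠ 0`, and the same estimate (`K.s1`, `Bt_mono` for the maximum
of the finitely many constants).
-/

set_option autoImplicit false

namespace Pool.Agent.Work.MP_d3656f_al

private theorem trb_gen {g : ℕ} {M : Model (SG g)} {C : ℝ} {p : V} (hp : p ∈ Cone)
    {Φ : MulAut (SG g)} (γ : SG g) (Vg : Subgroup (SG g))
    (hV : ∀ x : SG g, x ∈ Vg ↔ γ * Φ x = x * γ) (hfix : ∀ x ∈ Vg, M.bact x p = nrm p)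
    (hfin : ∀ C' : ℝ, ∃ E : Set (SG g), E.Finite ∧ ∀ v : SG g,
      Bt C' (M.pt (γ * Φ v)) (M.pt v) p → ∃ x ∈ Vg, ∃ f ∈ E, v = x * f)
    (F : SG g → SG g → ℤ) (hs : ∀ v u, F v u ≠ 0 → Bt C (M.pt v) (M.pt u) p)
    (he : ∀ x, M.bact x p = nrm p → ∀ v u, F (x * v) (x * u) = F v u) (a b : SG g) :
    Adm Vg (fun v => F (γ * Φ v * a) (v * b)) := by
  constructor
  · intro x hx v
    change F (γ * Φ (x * v) * a) (x * v * b) = F (γ * Φ v * a) (v * b)
    have h1 : γ * Φ (x * v) * a = x * (γ * Φ v * a) := by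
      rw [map_mul, ← mul_assoc γ, (hV x).1 hx]
      simp only [mul_assoc]
    rw [h1, mul_assoc x v b]
    exact he x (hfix x hx) _ _
  · set r : ℝ := max (M.q a 1) (M.q b 1) with hr
    obtain ⟨E, hE, hE2⟩ := hfin (256 * r ^ 4 * C)
    refine ⟨E, hE, fun v hv => hE2 v ?_⟩
    have h1 := hs _ _ hv
    refine Bt_move (M.pt_hyp _) (M.pt_hyp _) (M.pt_hyp _) (M.pt_hyp _) hp ?_ ?_ h1
    · have h2 : M.q (γ * Φ v * a) (γ * Φ v * 1) = M.q a 1 := M.q_left _ _ _
      rw [mul_one] at h2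
      change M.q (γ * Φ v * a) (γ * Φ v) ≤ r
      rw [h2]
      exact le_max_left _ _
    · have h2 : M.q (v * b) (v * 1) = M.q b 1 := M.q_left _ _ _
      rw [mul_one] at h2
      change M.q (v * b) v ≤ r
      rw [h2]
      exact le_max_right _ _

private theorem trb_add {π : Type} [Group π] {V : Subgroup π} {F F' : π → ℤ} (h : Adm V F)
    (h' : Adm V F') : Adm V (fun v => F v + F' v) := by
  obtain ⟨h1, E, hE, h2⟩ := h
  obtain ⟨h1', E', hE', h2'⟩ := h'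
  refine ⟨fun x hx v => ?_, E ∪ E', hE.union hE', fun v hv => ?_⟩
  · change F (x * v) + F' (x * v) = F v + F' v
    rw [h1 x hx v, h1' x hx v]
  · by_cases h0 : F v = 0
    · have h3 : F' v ≠ 0 := fun h4 => hv (by
        change F v + F' v = 0
        rw [h0, h4, add_zero])
      obtain ⟨x, hx, f, hf, e⟩ := h2' v h3
      exact ⟨x, hx, f, Or.inr hf, e⟩
    · obtain ⟨x, hx, f, hf, e⟩ := h2 v h0
      exact ⟨x, hx, f, Or.inl hf, e⟩

private theorem trb_smul {π : Type} [Group π] {V : Subgroup π} {F : π → ℤ} (h : Adm V F)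
    (r : ℤ) : Adm V (fun v => r * F v) := by
  obtain ⟨h1, E, hE, h2⟩ := h
  refine ⟨fun x hx v => ?_, E, hE, fun v hv => ?_⟩
  · change r * F (x * v) = r * F v
    rw [h1 x hx v]
  · exact h2 v fun h0 => hv (by
      change r * F v = 0
      rw [h0, mul_zero])

private theorem trb_sum {π ι : Type} [Group π] {V : Subgroup π} (s : Finset ι)
    (F : ι → π → ℤ) (h : ∀ i ∈ s, Adm V (F i)) : Adm V (fun v => ∑ i ∈ s, F i v) := by
  classical
  induction s using Finset.induction_on with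
  | empty =>
    refine ⟨fun x hx v => by simp, ∅, Set.finite_empty, fun v hv => absurd ?_ hv⟩
    simp
  | insert i s hi ih =>
    have h1 : (fun v => ∑ i ∈ insert i s, F i v) = fun v => F i v + ∑ i ∈ s, F i v := by
      funext v
      rw [Finset.sum_insert hi]
    rw [h1]
    exact trb_add (h i (Finset.mem_insert_self i s))
      (ih fun j hj => h j (Finset.mem_insert_of_mem hj))

theorem adm_K0 {g : ℕ} {M : Model (SG g)} {C : ℝ} {p : V} {e : SG g → ℤ} (K : KD M C p e)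
    (hp : p ∈ Cone) {Φ : MulAut (SG g)} (γ : SG g) (Vg : Subgroup (SG g))
    (hV : ∀ x : SG g, x ∈ Vg ↔ γ * Φ x = x * γ) (hfix : ∀ x ∈ Vg, M.bact x p = nrm p)
    (hfin : ∀ C' : ℝ, ∃ E : Set (SG g), E.Finite ∧ ∀ v : SG g,
      Bt C' (M.pt (γ * Φ v)) (M.pt v) p → ∃ x ∈ Vg, ∃ f ∈ E, v = x * f)
    (j : Fin g ⊕ Fin g) (u1 u2 : SG g) :
    Adm Vg (fun v => K.K0 (γ * Φ (v * u1)) j (v * u2)) := by
  have h := trb_gen hp γ Vg hV hfix hfin (fun v u => K.K0 v j u) (fun v u => K.s0 v j u)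
    (fun x hx v u => K.e0 x hx v j u) (Φ u1) u2
  have h1 : (fun v => K.K0 (γ * Φ (v * u1)) j (v * u2))
      = fun v => K.K0 (γ * Φ v * Φ u1) j (v * u2) := by
    funext v
    rw [map_mul, mul_assoc]
  rw [h1]
  exact h

theorem adm_H1 {g : ℕ} {M : Model (SG g)} {C : ℝ} {p : V} {e : SG g → ℤ} (K : KD M C p e)
    (hp : p ∈ Cone) {Φ : MulAut (SG g)} (T : TD Φ) (γ : SG g) (Vg : Subgroup (SG g))
    (hV : ∀ x : SG g, x ∈ Vg ↔ γ * Φ x = x * γ) (hfix : ∀ x ∈ Vg, M.bact x p = nrm p)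
    (hfin : ∀ C' : ℝ, ∃ E : Set (SG g), E.Finite ∧ ∀ v : SG g,
      Bt C' (M.pt (γ * Φ v)) (M.pt v) p → ∃ x ∈ Vg, ∃ f ∈ E, v = x * f)
    (j : Fin g ⊕ Fin g) (u1 u2 : SG g) :
    Adm Vg (fun v => H1f K T γ (v * u1) j (v * u2)) := by
  unfold H1f
  refine trb_sum _ _ fun k _ => ?_
  unfold Finsupp.sum
  refine trb_sum _ _ fun w _ => ?_
  refine trb_smul ?_ _
  have h := trb_gen hp γ Vg hV hfix hfin (fun v u => K.K1 v k u) (fun v u => K.s1 v k u)
    (fun x hx v u => K.e1 x hx v k u) (Φ u1 * w) u2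
  have h1 : (fun v => K.K1 (γ * Φ (v * u1) * w) k (v * u2))
      = fun v => K.K1 (γ * Φ v * (Φ u1 * w)) k (v * u2) := by
    funext v
    rw [map_mul]
    simp only [mul_assoc]
  rw [h1]
  exact h

end Pool.Agent.Work.MP_d3656f_al
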