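import Mathlib
import Pool.Agent.Work.MP_d3656f_al.I.TRa
import Pool.Agent.Work.MP_d3656f_al.I.TRb

/-!
# I/TR : the trace formula

`τ v = γ * Φ v`, `H0 v j u = K.K0 (τ v) j u`, `H1 = H1f K T γ`.
`chi ((τ v)⁻¹ v) = [τ v = v] - Σ_j W j j ((τ v)⁻¹ v) + c ((τ v)⁻¹ v)`.
1. `K.h0` at `τ v`, `u = v`: `[τ v = v] = e v + Σ_j (H0 v j (v (sg j)⁻¹) - H0 v j v)`
   (`dl (τ v) v = 1` iff `v = τ v`; `(1 : MonoidAlgebra).coeff ((τ v)⁻¹ v)` is the same number).
2. `H1_d2` at `u = v`, `k = j`: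
   `W j j ((τ v)⁻¹ v) = d2 (H1 v j) j v + H0 (v sg j) j v - H0 v j v`, where
   `d2 (H1 v (inl i)) (inl i) v = H1 v (inl i) (v (pa i)⁻¹) - H1 v (inl i) (v (ma i)⁻¹)`, etc.
3. `H1_face` at `u = v`.
Apply `S` (additive on admissible functions; all functions here are admissible by `adm_K0`,
`adm_H1`, `adm_neg`, finite sums; `S (- F) = - S F` and `S` of finite sums follow from `hS1`):
`S (v ↦ H0 v j (v (sg j)⁻¹)) = S (v ↦ H0 (v sg j) j v)` (`hS2` with `u = sg j`),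
`S (v ↦ H1 v (inl i) (v (pa i)⁻¹)) = S (v ↦ H1 (v pa i) (inl i) v)` (`hS2` with `u = pa i`), and in
the same way for `ma i, pb i, mb i`. Everything cancels except `S e`:
`S chi = S e + Σ_j (X_j - Z_j) - Σ_j (D_j + X_j - Z_j) + Σ_j D_j`.
-/

set_option autoImplicit false

namespace Pool.Agent.Work.MP_d3656f_al

open MonoidAlgebra

private theorem tr_zero {π : Type} [Group π] (V : Subgroup π) : Adm V (fun _ => (0 : ℤ)) :=
  ⟨fun _ _ _ => rfl, ∅, Set.finite_empty, fun _ hv => absurd rfl hv⟩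

private theorem tr_S0 {π : Type} [Group π] {V : Subgroup π} {S : (π → ℤ) → ℤ}
    (hS1 : ∀ F F' : π → ℤ, Adm V F → Adm V F' → S (fun v => F v + F' v) = S F + S F') :
    S (fun _ => 0) = 0 := by
  have h := hS1 _ _ (tr_zero V) (tr_zero V)
  rw [show (fun _ : π => (0 : ℤ) + 0) = fun _ => 0 from funext fun _ => add_zero 0] at h
  omega

private theorem tr_Sneg {π : Type} [Group π] {V : Subgroup π} {S : (π → ℤ) → ℤ}
    (hS1 : ∀ F F' : π → ℤ, Adm V F → Adm V F' → S (fun v => F v + F' v) = S F + S F')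
    {F : π → ℤ} (hF : Adm V F) : S (fun v => - F v) = - S F := by
  have h := hS1 _ _ hF (adm_neg hF)
  rw [show (fun v : π => F v + - F v) = fun _ => 0 from funext fun v => by ring, tr_S0 hS1] at h
  omega

/-- Admissible and of sum zero. -/
private def InB {π : Type} [Group π] (V : Subgroup π) (S : (π → ℤ) → ℤ) (F : π → ℤ) : Prop :=
  Adm V F ∧ S F = 0

private theorem inB_add {π : Type} [Group π] {V : Subgroup π} {S : (π → ℤ) → ℤ}
    (hS1 : ∀ F F' : π → ℤ, Adm V F → Adm V F' → S (fun v => F v + F' v) = S F + S F')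
    {F F' : π → ℤ} (h : InB V S F) (h' : InB V S F') : InB V S (fun v => F v + F' v) :=
  ⟨adm_add h.1 h'.1, by rw [hS1 _ _ h.1 h'.1, h.2, h'.2, add_zero]⟩

private theorem inB_neg {π : Type} [Group π] {V : Subgroup π} {S : (π → ℤ) → ℤ}
    (hS1 : ∀ F F' : π → ℤ, Adm V F → Adm V F' → S (fun v => F v + F' v) = S F + S F')
    {F : π → ℤ} (h : InB V S F) : InB V S (fun v => - F v) :=
  ⟨adm_neg h.1, by rw [tr_Sneg hS1 h.1, h.2, neg_zero]⟩

private theorem inB_sum {π ι : Type} [Group π] {V : Subgroup π} {S : (π → ℤ) → ℤ}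
    (hS1 : ∀ F F' : π → ℤ, Adm V F → Adm V F' → S (fun v => F v + F' v) = S F + S F')
    (s : Finset ι) (F : ι → π → ℤ) (h : ∀ i ∈ s, InB V S (F i)) :
    InB V S (fun v => ∑ i ∈ s, F i v) := by
  classical
  induction s using Finset.induction_on with
  | empty => exact ⟨by simpa using tr_zero V, by simpa using tr_S0 hS1⟩
  | insert i s hi ih =>
    have h1 : (fun v => ∑ i ∈ insert i s, F i v) = fun v => F i v + ∑ i ∈ s, F i v := by
      funext v
      rw [Finset.sum_insert hi]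
    rw [h1]
    exact inB_add hS1 (h i (Finset.mem_insert_self i s))
      (ih fun j hj => h j (Finset.mem_insert_of_mem hj))

private theorem inB_shift {π : Type} [Group π] {V : Subgroup π} {S : (π → ℤ) → ℤ}
    (hS1 : ∀ F F' : π → ℤ, Adm V F → Adm V F' → S (fun v => F v + F' v) = S F + S F')
    (hS2 : ∀ F : π → ℤ, Adm V F → ∀ u : π, S (fun v => F (v * u)) = S F)
    {F : π → ℤ} (h : Adm V F) (u : π) : InB V S (fun v => F v + - F (v * u)) := by
  refine ⟨adm_add h (adm_neg (adm_shift h u)), ?_⟩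
  rw [hS1 _ _ h (adm_neg (adm_shift h u)), tr_Sneg hS1 (adm_shift h u), hS2 F h u]
  ring

/-- The term used below. -/
private theorem inB_two {π : Type} [Group π] {V : Subgroup π} {S : (π → ℤ) → ℤ}
    (hS1 : ∀ F F' : π → ℤ, Adm V F → Adm V F' → S (fun v => F v + F' v) = S F + S F')
    (hS2 : ∀ F : π → ℤ, Adm V F → ∀ u : π, S (fun v => F (v * u)) = S F)
    (H : π → π → ℤ) (hH : ∀ u : π, Adm V (fun v => H v (v * u))) (u : π) :
    InB V S (fun v => H v (v * u⁻¹) + - H (v * u) v) := by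
  have h := inB_shift hS1 hS2 (hH u⁻¹) u
  have e : (fun v => H v (v * u⁻¹) + - H (v * u) (v * u * u⁻¹))
      = fun v => H v (v * u⁻¹) + - H (v * u) v := by
    funext v
    rw [mul_inv_cancel_right]
  rw [← e]
  exact h

theorem trace_id {g : ℕ} {M : Model (SG g)} {C : ℝ} {p : V} {e : SG g → ℤ} (K : KD M C p e)
    (hp : p ∈ Cone) {Φ : MulAut (SG g)} (T : TD Φ) (γ : SG g) (Vg : Subgroup (SG g))
    (hV : ∀ x : SG g, x ∈ Vg ↔ γ * Φ x = x * γ) (hfix : ∀ x ∈ Vg, M.bact x p = nrm p)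
    (hfin : ∀ C' : ℝ, ∃ E : Set (SG g), E.Finite ∧ ∀ v : SG g,
      Bt C' (M.pt (γ * Φ v)) (M.pt v) p → ∃ x ∈ Vg, ∃ f ∈ E, v = x * f)
    (he : Adm Vg e) (S : (SG g → ℤ) → ℤ)
    (hS1 : ∀ F F' : SG g → ℤ, Adm Vg F → Adm Vg F' → S (fun v => F v + F' v) = S F + S F')
    (hS2 : ∀ F : SG g → ℤ, Adm Vg F → ∀ u : SG g, S (fun v => F (v * u)) = S F) :
    S (fun v => T.chi.coeff ((γ * Φ v)⁻¹ * v)) = S e := by
  -- admissibility of the two families
  have a0 : ∀ (j : Fin g ⊕ Fin g) (u : SG g), Adm Vg (fun v => K.K0 (γ * Φ v) j (v * u)) := by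
    intro j u
    have h := adm_K0 K hp γ Vg hV hfix hfin j 1 u
    simpa only [mul_one] using h
  have a1 : ∀ (j : Fin g ⊕ Fin g) (u : SG g), Adm Vg (fun v => H1f K T γ v j (v * u)) := by
    intro j u
    have h := adm_H1 K hp T γ Vg hV hfix hfin j 1 u
    simpa only [mul_one] using h
  -- the boundary terms
  have b0 : ∀ j, InB Vg S (fun v => K.K0 (γ * Φ v) j (v * (sg j)⁻¹)
      + - K.K0 (γ * Φ (v * sg j)) j v) := fun j =>
    inB_two hS1 hS2 (fun v w => K.K0 (γ * Φ v) j w) (a0 j) (sg j)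
  have b1 : ∀ j s, InB Vg S (fun v => H1f K T γ v j (v * s⁻¹) + - H1f K T γ (v * s) j v) :=
    fun j s => inB_two hS1 hS2 (fun v w => H1f K T γ v j w) (a1 j) s
  have hb : InB Vg S (fun v => (∑ j, (K.K0 (γ * Φ v) j (v * (sg j)⁻¹)
      + - K.K0 (γ * Φ (v * sg j)) j v))
      + ∑ i : Fin g, ((- (H1f K T γ v (Sum.inl i) (v * (pa i)⁻¹)
          + - H1f K T γ (v * pa i) (Sum.inl i) v)
        + (H1f K T γ v (Sum.inl i) (v * (ma i)⁻¹) + - H1f K T γ (v * ma i) (Sum.inl i) v))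
        + (- (H1f K T γ v (Sum.inr i) (v * (pb i)⁻¹)
          + - H1f K T γ (v * pb i) (Sum.inr i) v)
        + (H1f K T γ v (Sum.inr i) (v * (mb i)⁻¹) + - H1f K T γ (v * mb i) (Sum.inr i) v)))) := by
    refine inB_add hS1 (inB_sum hS1 _ _ fun j _ => b0 j) (inB_sum hS1 _ _ fun i _ => ?_)
    exact inB_add hS1 (inB_add hS1 (inB_neg hS1 (b1 _ _)) (b1 _ _))
      (inB_add hS1 (inB_neg hS1 (b1 _ _)) (b1 _ _))
  have hone : ∀ v : SG g, (1 : MonoidAlgebra ℤ (SG g)).coeff ((γ * Φ v)⁻¹ * v)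
      = dl (γ * Φ v) v := by
    intro v
    classical
    rw [one_def, coeff_single, Finsupp.single_apply]
    unfold dl
    by_cases h : v = γ * Φ v
    · rw [if_pos h, if_pos (by rw [eq_comm, inv_mul_eq_one]; exact h.symm)]
    · rw [if_neg h, if_neg (fun h' => h (inv_mul_eq_one.1 h'.symm).symm)]
  have hchi : ∀ v : SG g, T.chi.coeff ((γ * Φ v)⁻¹ * v) = e v
      + ((∑ j, (K.K0 (γ * Φ v) j (v * (sg j)⁻¹)
      + - K.K0 (γ * Φ (v * sg j)) j v))
      + ∑ i : Fin g, ((- (H1f K T γ v (Sum.inl i) (v * (pa i)⁻¹)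
          + - H1f K T γ (v * pa i) (Sum.inl i) v)
        + (H1f K T γ v (Sum.inl i) (v * (ma i)⁻¹) + - H1f K T γ (v * ma i) (Sum.inl i) v))
        + (- (H1f K T γ v (Sum.inr i) (v * (pb i)⁻¹)
          + - H1f K T γ (v * pb i) (Sum.inr i) v)
        + (H1f K T γ v (Sum.inr i) (v * (mb i)⁻¹) + - H1f K T γ (v * mb i) (Sum.inr i) v)))) := by
    intro v
    have c0 : T.chi.coeff ((γ * Φ v)⁻¹ * v) = dl (γ * Φ v) v
        - ∑ j, (T.W j j).coeff ((γ * Φ v)⁻¹ * v) + T.c.coeff ((γ * Φ v)⁻¹ * v) := by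
      rw [← hone v]
      unfold TD.chi
      rw [coeff_add, coeff_sub, coeff_sum, Finsupp.add_apply, Finsupp.sub_apply,
        Finsupp.finset_sum_apply]
    have c1 : dl (γ * Φ v) v = e v + ∑ j, (K.K0 (γ * Φ v) j (v * (sg j)⁻¹)
        - K.K0 (γ * Φ v) j v) := by
      have h := K.h0 (γ * Φ v) v
      unfold d1 at h
      rw [h]; ring
    have c2 : ∀ j, (T.W j j).coeff ((γ * Φ v)⁻¹ * v) = d2 (H1f K T γ v j) j v
        + (K.K0 (γ * Φ (v * sg j)) j v - K.K0 (γ * Φ v) j v) := by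
      intro j
      have h := H1_d2 K T γ v j j v
      rw [h]; ring
    have c3 := H1_face K T γ v v
    have c4 : ∑ j, d2 (H1f K T γ v j) j v = ∑ i : Fin g,
        ((H1f K T γ v (Sum.inl i) (v * (pa i)⁻¹) - H1f K T γ v (Sum.inl i) (v * (ma i)⁻¹))
        + (H1f K T γ v (Sum.inr i) (v * (pb i)⁻¹) - H1f K T γ v (Sum.inr i) (v * (mb i)⁻¹))) := by
      rw [Fintype.sum_sum_type, ← Finset.sum_add_distrib]
      rfl
    rw [c0, c1, Finset.sum_congr rfl fun j _ => c2 j, Finset.sum_add_distrib, c4, ← c3]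
    have c5 : ∑ j, (K.K0 (γ * Φ v) j (v * (sg j)⁻¹) + - K.K0 (γ * Φ (v * sg j)) j v)
        = ∑ j, (K.K0 (γ * Φ v) j (v * (sg j)⁻¹) - K.K0 (γ * Φ v) j v)
          - ∑ j, (K.K0 (γ * Φ (v * sg j)) j v - K.K0 (γ * Φ v) j v) := by
      rw [← Finset.sum_sub_distrib]
      exact Finset.sum_congr rfl fun j _ => by ring
    rw [c5]
    have c6 : ∑ i : Fin g, ((- (H1f K T γ v (Sum.inl i) (v * (pa i)⁻¹)
          + - H1f K T γ (v * pa i) (Sum.inl i) v)
        + (H1f K T γ v (Sum.inl i) (v * (ma i)⁻¹) + - H1f K T γ (v * ma i) (Sum.inl i) v))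
        + (- (H1f K T γ v (Sum.inr i) (v * (pb i)⁻¹)
          + - H1f K T γ (v * pb i) (Sum.inr i) v)
        + (H1f K T γ v (Sum.inr i) (v * (mb i)⁻¹) + - H1f K T γ (v * mb i) (Sum.inr i) v)))
        = ∑ i : Fin g, (H1f K T γ (v * pa i) (Sum.inl i) v + H1f K T γ (v * pb i) (Sum.inr i) v
          - H1f K T γ (v * ma i) (Sum.inl i) v - H1f K T γ (v * mb i) (Sum.inr i) v)
        - ∑ i : Fin g,
        ((H1f K T γ v (Sum.inl i) (v * (pa i)⁻¹) - H1f K T γ v (Sum.inl i) (v * (ma i)⁻¹))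
        + (H1f K T γ v (Sum.inr i) (v * (pb i)⁻¹) - H1f K T γ v (Sum.inr i) (v * (mb i)⁻¹))) := by
      rw [← Finset.sum_sub_distrib]
      exact Finset.sum_congr rfl fun i _ => by ring
    rw [c6]
    ring
  rw [show (fun v => T.chi.coeff ((γ * Φ v)⁻¹ * v)) = _ from funext hchi, hS1 _ _ he hb.1, hb.2,
    add_zero]

end Pool.Agent.Work.MP_d3656f_al
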