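import Mathlib
import Pool.Agent.Work.MP_d3656f_al.I.TR

/-!
# I/Cls : class sums of the index function are 0 or 1

Apply `sfun Vg` and `trace_id`; the map `t v = (γ * Φ v)⁻¹ * v` satisfies `t (x v) = t v` for
`x ∈ Vg` (`γ Φ x = x γ` gives `γ * Φ (x v) = x * (γ * Φ v)`), and `t v = t v'` implies
`v' = x v` with `x = v' v⁻¹ = (γ Φ v') (γ Φ v)⁻¹ = γ Φ (v' v⁻¹) γ⁻¹`, so `x ∈ Vg`. Its range is
`Cl Φ γ`. For `e = 0`: `S 0 = 0` (additivity). For `e = dl 1`, `Vg = ⊥`: `S (dl 1) = 1`; `dl 1` is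
admissible.
-/

set_option autoImplicit false

namespace Pool.Agent.Work.MP_d3656f_al

/-- The subgroup of elements commuting with the lift. -/
private def fixV {g : ℕ} (Φ : MulAut (SG g)) (γ : SG g) : Subgroup (SG g) where
  carrier := {x | γ * Φ x = x * γ}
  mul_mem' := by
    intro x y hx hy
    simp only [Set.mem_ofPred_eq] at hx hy ⊢
    rw [map_mul, ← mul_assoc, hx, mul_assoc, hy, mul_assoc]
  one_mem' := by simp
  inv_mem' := by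
    intro x hx
    simp only [Set.mem_ofPred_eq] at hx ⊢
    rw [map_inv]
    have h1 : γ = x * γ * (Φ x)⁻¹ := by rw [← hx, mul_inv_cancel_right]
    calc γ * (Φ x)⁻¹ = x⁻¹ * (x * γ * (Φ x)⁻¹) := by group
      _ = x⁻¹ * γ := by rw [← h1]

private theorem mem_fixV {g : ℕ} (Φ : MulAut (SG g)) (γ x : SG g) :
    x ∈ fixV Φ γ ↔ γ * Φ x = x * γ := Iff.rfl

private theorem t_inv {g : ℕ} (Φ : MulAut (SG g)) (γ x : SG g) (hx : x ∈ fixV Φ γ) (v : SG g) :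
    (γ * Φ (x * v))⁻¹ * (x * v) = (γ * Φ v)⁻¹ * v := by
  have h : γ * Φ x = x * γ := hx
  rw [map_mul, ← mul_assoc γ, h]
  group

private theorem t_eq {g : ℕ} (Φ : MulAut (SG g)) (γ v v' : SG g)
    (h : (γ * Φ v)⁻¹ * v = (γ * Φ v')⁻¹ * v') : ∃ x ∈ fixV Φ γ, v' = x * v := by
  refine ⟨v' * v⁻¹, ?_, by group⟩
  show γ * Φ (v' * v⁻¹) = v' * v⁻¹ * γ
  rw [map_mul, map_inv]
  have h1 : v' = (γ * Φ v') * ((γ * Φ v)⁻¹ * v) := by rw [h, mul_inv_cancel_left]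
  have h2 : v' * v⁻¹ = (γ * Φ v') * (γ * Φ v)⁻¹ := by
    calc v' * v⁻¹ = (γ * Φ v') * ((γ * Φ v)⁻¹ * v) * v⁻¹ := by rw [← h1]
      _ = (γ * Φ v') * (γ * Φ v)⁻¹ := by group
  rw [h2]
  group

private theorem main_cls {g : ℕ} {M : Model (SG g)} {C : ℝ} {p : V} {e : SG g → ℤ}
    (K : KD M C p e) (hp : p ∈ Cone) {Φ : MulAut (SG g)} (T : TD Φ) (γ : SG g)
    (hfix : ∀ x : SG g, γ * Φ x = x * γ → M.bact x p = nrm p)
    (hfin : ∀ C' : ℝ, ∃ E : Set (SG g), E.Finite ∧ ∀ v : SG g,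
      Bt C' (M.pt (γ * Φ v)) (M.pt v) p → ∃ x : SG g, γ * Φ x = x * γ ∧ ∃ f ∈ E, v = x * f)
    (he : Adm (fixV Φ γ) e) :
    ∃ S : (SG g → ℤ) → ℤ,
      (∀ F F' : SG g → ℤ, Adm (fixV Φ γ) F → Adm (fixV Φ γ) F' →
        S (fun v => F v + F' v) = S F + S F') ∧
      (fixV Φ γ = ⊥ → ∀ w : SG g, S (dl w) = 1) ∧
      ∑ᶠ y ∈ Cl Φ γ, T.chi.coeff y = S e := by
  obtain ⟨S, hS1, hS2, hS3, hS4⟩ := sfun (fixV Φ γ)
  refine ⟨S, hS1, hS4, ?_⟩
  have h1 := trace_id K hp T γ (fixV Φ γ) (fun x => mem_fixV Φ γ x) (fun x hx => hfix x hx)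
    (fun C' => by
      obtain ⟨E, hE, hE'⟩ := hfin C'
      refine ⟨E, hE, fun v hv => ?_⟩
      obtain ⟨x, hx, f, hf, hvx⟩ := hE' v hv
      exact ⟨x, hx, f, hf, hvx⟩) he S hS1 hS2
  have h2 := hS3 (fun v => (γ * Φ v)⁻¹ * v) (fun x hx v => t_inv Φ γ x hx v)
    (fun v v' h => t_eq Φ γ v v' h) (fun y => T.chi.coeff y)
    (by
      refine (T.chi.coeff.support.finite_toSet).subset ?_
      intro y hy
      simpa using hy)
  rw [h2] at h1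
  rw [← h1]
  have h3 : Cl Φ γ = Set.range fun v => (γ * Φ v)⁻¹ * v := by
    ext y
    constructor
    · rintro ⟨v, rfl⟩
      exact ⟨v, rfl⟩
    · rintro ⟨v, rfl⟩
      exact ⟨v, rfl⟩
  rw [h3]

theorem class_zero {g : ℕ} {M : Model (SG g)} {C : ℝ} {p : V}
    (K : KD M C p (fun _ => 0)) (hp : p ∈ Cone) {Φ : MulAut (SG g)} (T : TD Φ) (γ : SG g)
    (hfix : ∀ x : SG g, γ * Φ x = x * γ → M.bact x p = nrm p)
    (hfin : ∀ C' : ℝ, ∃ E : Set (SG g), E.Finite ∧ ∀ v : SG g,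
      Bt C' (M.pt (γ * Φ v)) (M.pt v) p → ∃ x : SG g, γ * Φ x = x * γ ∧ ∃ f ∈ E, v = x * f) :
    ∑ᶠ y ∈ Cl Φ γ, T.chi.coeff y = 0 := by
  have h0 : Adm (fixV Φ γ) (fun _ => (0 : ℤ)) :=
    ⟨fun _ _ _ => rfl, ∅, Set.finite_empty, fun v hv => absurd rfl hv⟩
  obtain ⟨S, hS1, -, hS⟩ := main_cls K hp T γ hfix hfin h0
  rw [hS]
  have h := hS1 _ _ h0 h0
  simp only [add_zero] at h
  omega

theorem class_one {g : ℕ} {M : Model (SG g)} {C : ℝ}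
    (K : KD M C base (dl 1)) {Φ : MulAut (SG g)} (T : TD Φ) (γ : SG g)
    (htriv : ∀ x : SG g, γ * Φ x = x * γ → x = 1)
    (hfin : ∀ C' : ℝ, {v : SG g | Bt C' (M.pt (γ * Φ v)) (M.pt v) base}.Finite) :
    ∑ᶠ y ∈ Cl Φ γ, T.chi.coeff y = 1 := by
  have hbot : fixV Φ γ = ⊥ := by
    rw [Subgroup.eq_bot_iff_forall]
    exact fun x hx => htriv x hx
  have hbase : base ∈ Cone := hyp_cone base_hyp
  have he : Adm (fixV Φ γ) (dl 1) := by
    rw [hbot]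
    refine ⟨?_, {1}, Set.finite_singleton _, ?_⟩
    · intro x hx v
      rw [Subgroup.mem_bot] at hx
      rw [hx, one_mul]
    · intro v hv
      refine ⟨1, Subgroup.one_mem _, 1, rfl, ?_⟩
      by_contra hne
      apply hv
      unfold dl
      rw [if_neg (by simpa using hne)]
  obtain ⟨S, -, hS4, hS⟩ := main_cls K hbase T γ
    (fun x hx => by
      rw [htriv x hx]
      unfold Model.bact
      rw [M.act_one])
    (fun C' => ⟨_, hfin C', fun v hv => ⟨1, by simp, v, hv, by simp⟩⟩) he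
  rw [hS]
  exact hS4 hbot 1

end Pool.Agent.Work.MP_d3656f_al
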