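import Mathlib
import Pool.Agent.Work.MP_d3656f_al.I.Fox

/-!
# I/Cyc2 : locally finite two-cycles are constant

`cyc2`: let `d2 m = 0`. The coefficient at `(v, a_i)` gives (put `v = u P_i`)
`m u = m (u A_i)` with `A_i = pa i * (ma i)⁻¹`, the coefficient at `(v, b_i)` gives
`m u = m (u B_i)` with `B_i = pb i * (mb i)⁻¹`. So `m` is invariant under right multiplication by
the subgroup `H` generated by all `A_i, B_i`. Let `x = P_i a_i P_i⁻¹`, `y = P_i b_i P_i⁻¹`. Then
`A_i⁻¹ = x y x⁻¹` and `B_i = P_i a_i P_{i+1}⁻¹ = x y x y⁻¹ x⁻¹ = A_i⁻¹ x A_i`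
(`P_{i+1} = P_i a_i b_i a_i⁻¹ b_i⁻¹`). So `x ∈ H`, then `y ∈ H`. Induction on `i`: `P_i ∈ H`
(`P_0 = 1`), so `a_i, b_i ∈ H`, so `P_{i+1} ∈ H`. So `H = ⊤` and `m` is constant.
`cyc2_fin`: `m.coeff` is constant (`coeff_mul_fD`) and finitely supported on an infinite group.
-/

set_option autoImplicit false

namespace Pool.Agent.Work.MP_d3656f_al

/-- the right stabiliser of a function. -/
private def rst {G : Type} [Group G] (m : G → ℤ) : Subgroup G where
  carrier := {x | ∀ u, m (u * x) = m u}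
  mul_mem' := by
    intro x y hx hy u
    rw [← mul_assoc]
    exact (hy (u * x)).trans (hx u)
  one_mem' := by
    intro u
    rw [mul_one]
  inv_mem' := by
    intro x hx u
    have h := hx (u * x⁻¹)
    rw [inv_mul_cancel_right] at h
    exact h.symm

theorem cyc2 {g : ℕ} (m : SG g → ℤ) (h : ∀ j v, d2 m j v = 0) (u v : SG g) : m u = m v := by
  have hA : ∀ i : Fin g, (pa i : SG g) * (ma i)⁻¹ ∈ rst m := by
    intro i w
    have h1 : m (w * pa i * (pa i)⁻¹) - m (w * pa i * (ma i)⁻¹) = 0 := h (Sum.inl i) (w * pa i)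
    rw [mul_inv_cancel_right] at h1
    rw [← mul_assoc]
    exact (sub_eq_zero.1 h1).symm
  have hB : ∀ i : Fin g, (pb i : SG g) * (mb i)⁻¹ ∈ rst m := by
    intro i w
    have h1 : m (w * pb i * (pb i)⁻¹) - m (w * pb i * (mb i)⁻¹) = 0 := h (Sum.inr i) (w * pb i)
    rw [mul_inv_cancel_right] at h1
    rw [← mul_assoc]
    exact (sub_eq_zero.1 h1).symm
  have hstep : ∀ i : Fin g, (sP (i : ℕ) : SG g) ∈ rst m →
      (sg (Sum.inl i) : SG g) ∈ rst m ∧ (sg (Sum.inr i) : SG g) ∈ rst m := by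
    intro i hP
    have hA' := hA i
    have hB' := hB i
    have ex : (sg (Sum.inl i) : SG g) = (sP (i : ℕ))⁻¹ * ((pa i * (ma i)⁻¹) *
        (pb i * (mb i)⁻¹) * (pa i * (ma i)⁻¹)⁻¹) * sP (i : ℕ) := by
      unfold pa ma pb mb
      rw [sP_succ]
      group
    have hx : (sg (Sum.inl i) : SG g) ∈ rst m := by
      rw [ex]
      exact mul_mem (mul_mem (inv_mem hP) (mul_mem (mul_mem hA' hB') (inv_mem hA'))) hP
    have ey : (sg (Sum.inr i) : SG g) = (sg (Sum.inl i))⁻¹ * (sP (i : ℕ))⁻¹ *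
        (pa i * (ma i)⁻¹)⁻¹ * sP (i : ℕ) * sg (Sum.inl i) := by
      unfold pa ma
      group
    refine ⟨hx, ?_⟩
    rw [ey]
    exact mul_mem (mul_mem (mul_mem (mul_mem (inv_mem hx) (inv_mem hP)) (inv_mem hA')) hP) hx
  have hPn : ∀ n : ℕ, n ≤ g → (sP n : SG g) ∈ rst m := by
    intro n
    induction n with
    | zero =>
      intro _
      rw [sP_zero]
      exact one_mem _
    | succ n ih =>
      intro hn
      have h1 := ih (by omega)
      have h2 := hstep ⟨n, by omega⟩ h1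
      have h3 := sP_succ (g := g) ⟨n, by omega⟩
      simp only at h3
      rw [h3]
      exact mul_mem (mul_mem (mul_mem (mul_mem h1 h2.1) h2.2) (inv_mem h2.1)) (inv_mem h2.2)
  have htop : rst m = ⊤ := by
    rw [eq_top_iff, ← PresentedGroup.closure_range_of, Subgroup.closure_le]
    rintro x ⟨j, rfl⟩
    rcases j with i | i
    · exact (hstep i (hPn _ i.2.le)).1
    · exact (hstep i (hPn _ i.2.le)).2
  have h1 : u⁻¹ * v ∈ rst m := by
    rw [htop]
    exact Subgroup.mem_top _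
  have h2 := h1 u
  rw [mul_inv_cancel_left] at h2
  exact h2.symm

theorem cyc2_fin {g : ℕ} [Infinite (SG g)] (m : MonoidAlgebra ℤ (SG g))
    (h : ∀ k, m * fD k = 0) : m = 0 := by
  have h1 : ∀ k v, d2 (fun u => m.coeff u) k v = 0 := by
    intro k v
    rw [← coeff_mul_fD, h k]
    rfl
  obtain ⟨w, hw⟩ := Infinite.exists_notMem_finset m.coeff.support
  rw [Finsupp.notMem_support_iff] at hw
  apply MonoidAlgebra.coeff_injective
  ext u
  have h2 : m.coeff u = m.coeff w := cyc2 (fun u => m.coeff u) h1 u w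
  rw [h2, hw]
  rfl

end Pool.Agent.Work.MP_d3656f_al
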