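import Mathlib
import Pool.Agent.Work.MP_d3656f_al.I.Cyc2

/-!
# I/Deg : chain maps exist, their degree is at most one, and the total index

* `td_ex`: `W j` from `fox_path (Φ (sg j))`. Put `x_k = Σ_j mapR Φ (fD j) * W j k`. Then
  `Σ_k x_k (sg k - 1) = Σ_j mapR Φ (fD j) (Φ (sg j) - 1) = mapR Φ (Σ_j fD j (sg j - 1)) = 0`
  (`sum_fD`), so `fox_H1` gives `c`.
* `eps` is a ring homomorphism (`eps_mul`, `eps_add`, ...), `eps (mapR Φ x) = eps x`,
  `eps (fD j) = 0`.
* `deg_indep`: let `T, T'` be chain maps over `Φ`. `Σ_k (W j k - W' j k)(sg k - 1) = 0`, so by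
  `fox_H1` there are `h_j` with `W j k - W' j k = h_j * fD k`. Then
  `(c - c' - Σ_j mapR Φ (fD j) * h_j) * fD k = 0` for all `k`, so by `cyc2_fin`
  `c - c' = Σ_j mapR Φ (fD j) * h_j`, whose augmentation is `0`.
* `deg_le`: for `Ψ = Φ⁻¹` take a chain map `T'` (over `Ψ`). The data
  `W'' l k = Σ_j mapR Ψ (W l j) * W' j k`, `c'' = mapR Ψ c * c'` form a chain map over
  `Ψ * Φ = 1`:
  `Σ_k W'' l k (sg k - 1) = Σ_j mapR Ψ (W l j) (Ψ (sg j) - 1) = mapR Ψ (Φ (sg l) - 1)`,
  `c'' * fD k = mapR Ψ c * Σ_j mapR Ψ (fD j) * W' j k = Σ_j mapR Ψ (c * fD j) * W' j k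
   = Σ_j Σ_l mapR Ψ (mapR Φ (fD l) * W l j) * W' j k = Σ_l fD l * W'' l k`. The identity chain map
  has `c = 1`. So `eps c * eps c' = 1`, so `eps c` is `1` or `-1`.
* `eps_chi`: for fixed `k` let `λ : R → ℤ` be the additive map `v ↦ abz k v`. Then
  `λ (v sg j - v) = abz k (sg j) = δ_{jk}`, so `λ (Σ_j x_j (sg j - 1)) = eps (x_k)`. Applied to
  `hW`: `eps (W j k) = abz k (Φ (sg j)) = matH Φ j k`. So
  `eps chi = 1 - trace + eps c`.
-/

set_option autoImplicit false

namespace Pool.Agent.Work.MP_d3656f_al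

open MonoidAlgebra

private theorem dg_ss {g : ℕ} (x y : SG g) :
    (single x 1 * single y 1 : MonoidAlgebra ℤ (SG g)) = single (x * y) 1 := by
  rw [single_mul_single, one_mul]

private noncomputable def dgA {g : ℕ} (u : SG g → ℤ) : MonoidAlgebra ℤ (SG g) →+ ℤ :=
  (Finsupp.liftAddHom (fun v : SG g => (AddMonoidHom.mulRight (u v)))).comp
    (coeffAddEquiv : MonoidAlgebra ℤ (SG g) ≃+ (SG g →₀ ℤ)).toAddMonoidHom

private theorem dgA_single {g : ℕ} (u : SG g → ℤ) (v : SG g) (r : ℤ) :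
    dgA u (single v r) = r * u v := by
  change Finsupp.liftAddHom (fun v : SG g => (AddMonoidHom.mulRight (u v))) (Finsupp.single v r) = _
  rw [Finsupp.liftAddHom_apply_single]
  rfl

private theorem dg_eps {g : ℕ} (x : MonoidAlgebra ℤ (SG g)) : eps x = dgA (fun _ => 1) x := by
  unfold eps dgA
  rw [AddMonoidHom.comp_apply, Finsupp.liftAddHom_apply]
  change _ = (x.coeff).sum fun v r => r * 1
  refine Finsupp.sum_congr fun v _ => ?_
  rw [mul_one]

private theorem dg_eps_single {g : ℕ} (v : SG g) (r : ℤ) :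
    eps (single v r : MonoidAlgebra ℤ (SG g)) = r := by
  rw [dg_eps, dgA_single, mul_one]

private theorem dg_eps_add {g : ℕ} (x y : MonoidAlgebra ℤ (SG g)) : eps (x + y) = eps x + eps y := by
  rw [dg_eps, dg_eps, dg_eps, map_add]

private theorem dg_eps_sub {g : ℕ} (x y : MonoidAlgebra ℤ (SG g)) : eps (x - y) = eps x - eps y := by
  rw [dg_eps, dg_eps, dg_eps, map_sub]

private theorem dg_eps_sum {g : ℕ} {κ : Type*} (s : Finset κ) (x : κ → MonoidAlgebra ℤ (SG g)) :
    eps (∑ k ∈ s, x k) = ∑ k ∈ s, eps (x k) := by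
  rw [dg_eps, map_sum]
  exact Finset.sum_congr rfl fun k _ => (dg_eps _).symm

private theorem dg_eps_one {g : ℕ} : eps (1 : MonoidAlgebra ℤ (SG g)) = 1 := by
  rw [one_def, dg_eps_single]

private theorem dg_eps_mul {g : ℕ} (x y : MonoidAlgebra ℤ (SG g)) : eps (x * y) = eps x * eps y := by
  induction x using MonoidAlgebra.induction_linear with
  | zero => rw [zero_mul, dg_eps 0, map_zero, zero_mul]
  | add x x' hx hx' => rw [add_mul, dg_eps_add, hx, hx', dg_eps_add, add_mul]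
  | single v r =>
    induction y using MonoidAlgebra.induction_linear with
    | zero => rw [mul_zero, dg_eps 0, map_zero, mul_zero]
    | add y y' hy hy' => rw [mul_add, dg_eps_add, hy, hy', dg_eps_add, mul_add]
    | single w t => rw [single_mul_single, dg_eps_single, dg_eps_single, dg_eps_single]

private theorem dg_map_single {g : ℕ} (Φ : MulAut (SG g)) (v : SG g) (r : ℤ) :
    mapR Φ (single v r) = single (Φ v) r := by
  unfold mapR
  rw [MonoidAlgebra.mapDomainRingHom_apply]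
  exact mapDomain_single

private theorem dg_eps_map {g : ℕ} (Φ : MulAut (SG g)) (x : MonoidAlgebra ℤ (SG g)) :
    eps (mapR Φ x) = eps x := by
  induction x using MonoidAlgebra.induction_linear with
  | zero => rw [map_zero]
  | add x x' hx hx' => rw [map_add, dg_eps_add, hx, hx', dg_eps_add]
  | single v r => rw [dg_map_single, dg_eps_single, dg_eps_single]

private theorem dg_map_map {g : ℕ} (Φ : MulAut (SG g)) (x : MonoidAlgebra ℤ (SG g)) :
    mapR Φ⁻¹ (mapR Φ x) = x := by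
  induction x using MonoidAlgebra.induction_linear with
  | zero => rw [map_zero, map_zero]
  | add x x' hx hx' => rw [map_add, map_add, hx, hx']
  | single v r =>
    rw [dg_map_single, dg_map_single]
    congr 1
    exact MulAut.inv_apply_self _ Φ v

private theorem dg_map_one {g : ℕ} (x : MonoidAlgebra ℤ (SG g)) :
    mapR (1 : MulAut (SG g)) x = x := by
  induction x using MonoidAlgebra.induction_linear with
  | zero => rw [map_zero]
  | add x x' hx hx' => rw [map_add, hx, hx']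
  | single v r => rw [dg_map_single]; rfl

private theorem dg_map_sub_one {g : ℕ} (Φ : MulAut (SG g)) (v : SG g) :
    mapR Φ (single v 1 - 1) = single (Φ v) 1 - 1 := by
  rw [map_sub, map_one, dg_map_single]

private theorem dg_eps_fD {g : ℕ} (k : Fin g ⊕ Fin g) :
    eps (fD k : MonoidAlgebra ℤ (SG g)) = 0 := by
  rcases k with i | i
  · change eps (single (pa i) 1 - single (ma i) 1 : MonoidAlgebra ℤ (SG g)) = 0
    rw [dg_eps_sub, dg_eps_single, dg_eps_single, sub_self]
  · change eps (single (pb i) 1 - single (mb i) 1 : MonoidAlgebra ℤ (SG g)) = 0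
    rw [dg_eps_sub, dg_eps_single, dg_eps_single, sub_self]

theorem td_ex {g : ℕ} (Φ : MulAut (SG g)) : Nonempty (TD Φ) := by
  choose W hW using fun j : Fin g ⊕ Fin g => fox_path (Φ (sg j))
  obtain ⟨c, hc⟩ := fox_H1 (fun k => ∑ j, mapR Φ (fD j) * W j k) (by
    have h1 : ∀ k : Fin g ⊕ Fin g, (∑ j, mapR Φ (fD j) * W j k) * (single (sg k) 1 - 1) =
        ∑ j, mapR Φ (fD j) * (W j k * (single (sg k) 1 - 1)) := by
      intro k
      rw [Finset.sum_mul]
      exact Finset.sum_congr rfl fun j _ => mul_assoc _ _ _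
    rw [Finset.sum_congr rfl fun k _ => h1 k, Finset.sum_comm]
    have h2 : ∀ j : Fin g ⊕ Fin g, ∑ k, mapR Φ (fD j) * (W j k * (single (sg k) 1 - 1)) =
        mapR Φ (fD j * (single (sg j) 1 - 1)) := by
      intro j
      rw [← Finset.mul_sum, hW, map_mul, dg_map_sub_one]
    rw [Finset.sum_congr rfl fun j _ => h2 j, ← map_sum, sum_fD, map_zero])
  exact ⟨⟨W, c, hW, fun k => (hc k).symm⟩⟩

theorem deg_indep {g : ℕ} [Infinite (SG g)] {Φ : MulAut (SG g)} (T T' : TD Φ) :
    eps T.c = eps T'.c := by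
  have h1 : ∀ j : Fin g ⊕ Fin g, ∃ m : MonoidAlgebra ℤ (SG g), ∀ k, T.W j k - T'.W j k = m * fD k := by
    intro j
    refine fox_H1 (fun k => T.W j k - T'.W j k) ?_
    simp only [sub_mul, Finset.sum_sub_distrib]
    have h2 := T.hW j
    have h3 := T'.hW j
    rw [h2, h3, sub_self]
  choose m hm using h1
  have h2 : T.c - T'.c - ∑ j, mapR Φ (fD j) * m j = 0 := by
    apply cyc2_fin
    intro k
    rw [sub_mul, sub_mul, T.hc, T'.hc, Finset.sum_mul, ← Finset.sum_sub_distrib,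
      ← Finset.sum_sub_distrib]
    refine Finset.sum_eq_zero fun j _ => ?_
    rw [mul_assoc, ← hm j k, mul_sub, sub_self]
  have h3 : eps (T.c - T'.c) = 0 := by
    rw [sub_eq_zero.1 h2, dg_eps_sum]
    refine Finset.sum_eq_zero fun j _ => ?_
    rw [dg_eps_mul, dg_eps_map, dg_eps_fD, zero_mul]
  rw [dg_eps_sub] at h3
  linarith

private theorem dg_id {g : ℕ} : ∃ T : TD (1 : MulAut (SG g)), T.c = 1 := by
  classical
  refine ⟨⟨fun j k => if j = k then 1 else 0, 1, fun j => ?_, fun k => ?_⟩, rfl⟩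
  · simp only [ite_mul, one_mul, zero_mul, Finset.sum_ite_eq, Finset.mem_univ, if_true]
    rfl
  · simp only [mul_ite, mul_one, mul_zero, Finset.sum_ite_eq', Finset.mem_univ, if_true]
    rw [dg_map_one, one_mul]

theorem deg_le {g : ℕ} [Infinite (SG g)] {Φ : MulAut (SG g)} (T : TD Φ) : eps T.c ≤ 1 := by
  obtain ⟨T'⟩ := td_ex Φ⁻¹
  obtain ⟨T1, hT1⟩ := dg_id (g := g)
  have hW : ∀ l : Fin g ⊕ Fin g, ∑ k, (∑ j, mapR Φ⁻¹ (T.W l j) * T'.W j k) *
      (single (sg k) 1 - 1) = single ((1 : MulAut (SG g)) (sg l)) 1 - 1 := by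
    intro l
    have h1 : ∀ k : Fin g ⊕ Fin g, (∑ j, mapR Φ⁻¹ (T.W l j) * T'.W j k) *
        (single (sg k) 1 - 1) = ∑ j, mapR Φ⁻¹ (T.W l j) * (T'.W j k * (single (sg k) 1 - 1)) := by
      intro k
      rw [Finset.sum_mul]
      exact Finset.sum_congr rfl fun j _ => mul_assoc _ _ _
    rw [Finset.sum_congr rfl fun k _ => h1 k, Finset.sum_comm]
    have h2 : ∀ j : Fin g ⊕ Fin g, ∑ k, mapR Φ⁻¹ (T.W l j) *
        (T'.W j k * (single (sg k) 1 - 1)) = mapR Φ⁻¹ (T.W l j * (single (sg j) 1 - 1)) := by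
      intro j
      rw [← Finset.mul_sum, T'.hW, map_mul, dg_map_sub_one]
    rw [Finset.sum_congr rfl fun j _ => h2 j, ← map_sum, T.hW, dg_map_sub_one,
      MulAut.inv_apply_self]
    rfl
  have hc : ∀ k : Fin g ⊕ Fin g, mapR Φ⁻¹ T.c * T'.c * fD k =
      ∑ l, mapR (1 : MulAut (SG g)) (fD l) * ∑ j, mapR Φ⁻¹ (T.W l j) * T'.W j k := by
    intro k
    rw [mul_assoc, T'.hc, Finset.mul_sum]
    have h1 : ∀ j : Fin g ⊕ Fin g, mapR Φ⁻¹ T.c * (mapR Φ⁻¹ (fD j) * T'.W j k) =
        ∑ l, fD l * (mapR Φ⁻¹ (T.W l j) * T'.W j k) := by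
      intro j
      rw [← mul_assoc, ← map_mul, T.hc, map_sum, Finset.sum_mul]
      refine Finset.sum_congr rfl fun l _ => ?_
      rw [map_mul, dg_map_map, mul_assoc]
    rw [Finset.sum_congr rfl fun j _ => h1 j, Finset.sum_comm]
    refine Finset.sum_congr rfl fun l _ => ?_
    rw [dg_map_one, Finset.mul_sum]
  have h3 := deg_indep (⟨fun l k => ∑ j, mapR Φ⁻¹ (T.W l j) * T'.W j k,
    mapR Φ⁻¹ T.c * T'.c, hW, hc⟩ : TD (1 : MulAut (SG g))) T1
  change eps (mapR Φ⁻¹ T.c * T'.c) = eps T1.c at h3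
  rw [hT1, dg_eps_one, dg_eps_mul, dg_eps_map] at h3
  rcases Int.eq_one_or_neg_one_of_mul_eq_one h3 with h4 | h4 <;> omega

private theorem dg_abz {g : ℕ} (j k : Fin g ⊕ Fin g) :
    Multiplicative.toAdd (abz k (sg j)) = if j = k then 1 else 0 := by
  have h1 : abz k (sg j) = Multiplicative.ofAdd (if j = k then (1 : ℤ) else 0) :=
    PresentedGroup.toGroup.of _
  rw [h1, toAdd_ofAdd]

private theorem dg_lam {g : ℕ} (j k : Fin g ⊕ Fin g) (y : MonoidAlgebra ℤ (SG g)) :
    dgA (fun v => Multiplicative.toAdd (abz k v)) (y * (single (sg j) 1 - 1)) =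
      eps y * if j = k then 1 else 0 := by
  induction y using MonoidAlgebra.induction_linear with
  | zero => rw [zero_mul, map_zero, dg_eps 0, map_zero, zero_mul]
  | add x y hx hy => rw [add_mul, map_add, hx, hy, dg_eps_add, add_mul]
  | single v r =>
    rw [mul_sub, mul_one, single_mul_single, mul_one, map_sub, dgA_single, dgA_single,
      dg_eps_single, map_mul, toAdd_mul, dg_abz]
    ring

private theorem dg_eps_W {g : ℕ} {Φ : MulAut (SG g)} (T : TD Φ) (j k : Fin g ⊕ Fin g) :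
    eps (T.W j k) = matH Φ j k := by
  have h1 := congrArg (dgA (fun v => Multiplicative.toAdd (abz k v))) (T.hW j)
  rw [map_sum, Finset.sum_congr rfl fun l _ => dg_lam l k (T.W j l), map_sub, dgA_single, one_def,
    dgA_single, map_one, toAdd_one] at h1
  simp only [mul_ite, mul_one, mul_zero, Finset.sum_ite_eq', Finset.mem_univ, if_true, one_mul,
    sub_zero] at h1
  rw [h1]
  rfl

theorem eps_chi {g : ℕ} {Φ : MulAut (SG g)} (T : TD Φ) :
    eps T.chi = 1 - (matH Φ).trace + eps T.c := by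
  unfold TD.chi
  rw [dg_eps_add, dg_eps_sub, dg_eps_one, dg_eps_sum]
  have h1 : ∑ j, eps (T.W j j) = (matH Φ).trace :=
    Finset.sum_congr rfl fun j _ => dg_eps_W T j j
  rw [h1]

end Pool.Agent.Work.MP_d3656f_al
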