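import Mathlib
import Pool.Agent.Work.MP_d3656f_al.I.Cls
import Pool.Agent.Work.MP_d3656f_al.I.Deg
import Pool.Agent.Work.MP_d3656f_al.J.Near
import Pool.Agent.Work.MP_d3656f_al.J.Good
import Pool.Agent.Work.MP_d3656f_al.J.NoFix
import Pool.Agent.Work.MP_d3656f_al.K.K2

/-!
# I/IT : the index theorem

Let `Φ` be `OP` and suppose that no lift `conj γ * Φ` has three fixed points on the circle. Then
the trace of `matH Φ` is at most `2`.
Proof: `T : TD Φ` (`td_ex`). For every `γ` the class sum of `chi` over `Cl Φ γ` is `0` or `1`: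
* `Ψ = conj γ * Φ` has a fixed point: `a` from `good` (`OP_mul`, `OP_conj`), `K` from `kd_bd`.
  `class_zero`: `hfix` is `vfix` (`nrm a = a`). `hfin`: let `C'` be given and `D` from `rep`;
  as `a` is not `Rep`, `Bt C' (τ v) v a` implies `q v (τ v) < D`, and `near`.
* otherwise: `kd_base`, `class_one` with `nofix`, `nofix_triv`.
So `0 ≤ eps T.chi` by `tot` (`eps x = Σᶠ x.coeff`), and `eps_chi`, `deg_le` (`M.inf`).
-/

set_option autoImplicit false

namespace Pool.Agent.Work.MP_d3656f_al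

private theorem eps_finsum {g : ℕ} (x : MonoidAlgebra ℤ (SG g)) :
    eps x = ∑ᶠ y, x.coeff y := by
  unfold eps
  rw [Finsupp.sum, finsum_eq_sum_of_support_subset]
  intro y hy
  simpa using hy

theorem index_thm {g : ℕ} (M : Model (SG g)) {Φ : MulAut (SG g)} (hop : M.OP Φ)
    (h2 : ∀ γ : SG g, ¬ M.Fix3 (MulAut.conj γ * Φ)) : (matH Φ).trace ≤ 2 := by
  have := M.inf
  obtain ⟨T⟩ := td_ex Φ
  have hcl : ∀ γ : SG g, 0 ≤ ∑ᶠ y ∈ Cl Φ γ, T.chi.coeff y := by
    intro γ
    by_cases hf : ∃ a ∈ Bd, M.bd (MulAut.conj γ * Φ) a = a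
    · have hopΨ : M.OP (MulAut.conj γ * Φ) := M.OP_mul (M.OP_conj γ) hop
      obtain ⟨a, ha, hfa, hnr⟩ := M.good hopΨ (h2 γ) hf
      obtain ⟨C, ⟨K⟩⟩ := kd_bd M ha
      have h := class_zero K (bd_cone ha) T γ
        (fun x hx => by rw [nrm_bd ha]; exact M.vfix Φ γ (h2 γ) ha hfa hx)
        (fun C' => by
          obtain ⟨D, hD⟩ := M.rep Φ γ ha hfa C'
          obtain ⟨E, hE, hE'⟩ := M.near Φ γ D
          refine ⟨E, hE, fun v hv => hE' v ?_⟩
          by_contra hlt
          exact hnr (hD v hv (not_le.mp hlt).le))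
      rw [h]
    · have hf' : ∀ a ∈ Bd, M.bd (MulAut.conj γ * Φ) a ≠ a := fun a ha h => hf ⟨a, ha, h⟩
      obtain ⟨C, ⟨K⟩⟩ := kd_base M
      have h := class_one K T γ (fun x hx => M.nofix_triv Φ γ hf' hx)
        (fun C' => M.nofix Φ γ hf' C')
      rw [h]
      norm_num
  have htot := tot Φ (fun y => T.chi.coeff y)
    (by
      refine (T.chi.coeff.support.finite_toSet).subset ?_
      intro y hy
      simpa using hy) hcl
  rw [← eps_finsum, eps_chi] at htot
  have hdeg := deg_le T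
  omega

end Pool.Agent.Work.MP_d3656f_al
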